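import Pool.Agent.Lib.MP_cae7fa_lc.Prof

/-!
# Coding sets of tuples by germs at infinity
-/

namespace Pool.MPcae7fa

open Filter

/-- Codes: a label and a finite sequence of points. -/
abbrev Code : Type := ℕ × List ℕ

/-- The points of level `n`. -/
def clip (n a : ℕ) : Fin (n + 1) := Fin.ofNat (n + 1) a

theorem clip_val {n a : ℕ} (h : a ≤ n) : (clip n a).val = a := by
  simp only [clip, Fin.ofNat_eq_cast, Fin.val_natCast]
  exact Nat.mod_eq_of_lt (Nat.lt_succ_of_le h)

theorem clip_inj {n a b : ℕ} (ha : a ≤ n) (hb : b ≤ n) (h : clip n a = clip n b) : a = b := by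
  have := congrArg Fin.val h
  rwa [clip_val ha, clip_val hb] at this

/-- The germ of a code at level `n`. -/
def germ (q : Code) (n : ℕ) : F n := (clip n q.1, fun j => (q.2[j.val]?).map (clip n))

theorem germ_inj {q q' : Code} (h : ∀ᶠ n in atTop, germ q n = germ q' n) : q = q' := by
  obtain ⟨N, hN⟩ := eventually_atTop.1 h
  obtain ⟨s, l⟩ := q
  obtain ⟨s', l'⟩ := q'
  let n := max N (max (max s s') (max (max l.length l'.length) (max l.sum l'.sum)))
  have h0 := hN n (le_max_left _ _)
  have h1 : s ≤ n := le_trans (le_max_left _ _) (le_trans (le_max_left _ _) (le_max_right _ _))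
  have h1' : s' ≤ n := le_trans (le_max_right _ _) (le_trans (le_max_left _ _) (le_max_right _ _))
  have h2 : max (max l.length l'.length) (max l.sum l'.sum) ≤ n :=
    le_trans (le_max_right _ _) (le_max_right _ _)
  have hs : s = s' := clip_inj h1 h1' (congrArg Prod.fst h0)
  have hl : l = l' := by
    apply List.ext_getElem?
    intro i
    by_cases hi : i < n + 1
    · have := congrFun (congrArg Prod.snd h0) ⟨i, hi⟩
      simp only [germ] at this
      have b1 : ∀ a ∈ l, a ≤ n := fun a ha =>
        le_trans (List.single_le_sum (fun _ _ => Nat.zero_le _) a ha)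
          (le_trans (le_max_left _ _) (le_trans (le_max_right _ _) h2))
      have b2 : ∀ a ∈ l', a ≤ n := fun a ha =>
        le_trans (List.single_le_sum (fun _ _ => Nat.zero_le _) a ha)
          (le_trans (le_max_right _ _) (le_trans (le_max_right _ _) h2))
      rcases hx : l[i]? with _ | x <;> rcases hy : l'[i]? with _ | y
      · rfl
      · rw [hx, hy] at this; simp at this
      · rw [hx, hy] at this; simp at this
      · rw [hx, hy] at this
        simp only [Option.map_some, Option.some.injEq] at this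
        have := clip_inj (b1 x (List.mem_of_getElem? hx)) (b2 y (List.mem_of_getElem? hy)) this
        rw [this]
    · have c1 : l.length ≤ i := by
        have := le_trans (le_max_left _ _) (le_trans (le_max_left _ _) h2)
        omega
      have c2 : l'.length ≤ i := by
        have := le_trans (le_max_right l.length l'.length) (le_trans (le_max_left _ _) h2)
        omega
      rw [List.getElem?_eq_none c1, List.getElem?_eq_none c2]
  rw [hs, hl]

/-- The action of a permutation of the natural numbers on codes. -/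
def cact (σ : Equiv.Perm ℕ) (q : Code) : Code := (q.1, q.2.map σ)

theorem cact_cact_symm (σ : Equiv.Perm ℕ) (q : Code) : cact σ (cact σ.symm q) = q := by
  simp [cact, Function.comp_def]

theorem cact_symm_cact (σ : Equiv.Perm ℕ) (q : Code) : cact σ.symm (cact σ q) = q := by
  simp [cact, Function.comp_def]

/-- A sequence of permutations of the levels converges to a permutation of the natural numbers. -/
def Conv (g : ∀ n, Equiv.Perm (Fin (n + 1))) (σ : ℕ → ℕ) : Prop :=
  ∀ i, ∀ᶠ n in atTop, g n (clip n i) = clip n (σ i)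

theorem act_germ {g : ∀ n, Equiv.Perm (Fin (n + 1))} {σ : Equiv.Perm ℕ} (h : Conv g σ) (q : Code) :
    ∀ᶠ n in atTop, act (g n) (germ q n) = germ (cact σ q) n := by
  have h1 : ∀ᶠ n in atTop, ∀ i ∈ q.2, g n (clip n i) = clip n (σ i) := by
    have := (eventually_all_finite (q.2.toFinset.finite_toSet)
      (p := fun i n => g n (clip n i) = clip n (σ i)) (l := atTop)).2 (fun i _ => h i)
    filter_upwards [this] with n hn i hi
    exact hn i (by simpa using hi)
  filter_upwards [h1] with n hn
  simp only [act, germ, cact, Prod.mk.injEq, true_and]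
  funext j
  rw [List.getElem?_map]
  rcases hx : q.2[j.val]? with _ | x
  · rfl
  · simp only [Option.map_some, Option.some.injEq]
    exact hn x (List.mem_of_getElem? hx)

/-- Every permutation of the natural numbers is the limit of permutations of the levels. -/
theorem exists_conv (σ : Equiv.Perm ℕ) : ∃ g : ∀ n, Equiv.Perm (Fin (n + 1)), Conv g σ := by
  classical
  have key : ∀ n : ℕ, ∃ g : Equiv.Perm (Fin (n + 1)), ∀ i ≤ n, σ i ≤ n →
      g (clip n i) = clip n (σ i) := by
    intro n
    let e : {i : Fin (n + 1) // σ i.val < n + 1} ≃ {j : Fin (n + 1) // σ.symm j.val < n + 1} :=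
      { toFun := fun i => ⟨⟨σ i.1.val, i.2⟩, by
          simp only [Equiv.symm_apply_apply]; exact i.1.2⟩
        invFun := fun j => ⟨⟨σ.symm j.1.val, j.2⟩, by
          simp only [Equiv.apply_symm_apply]; exact j.1.2⟩
        left_inv := fun i => by simp
        right_inv := fun j => by simp }
    refine ⟨e.extendSubtype, fun i hi hσ => ?_⟩
    have hp : σ (clip n i).val < n + 1 := by rw [clip_val hi]; omega
    rw [Equiv.extendSubtype_apply_of_mem e _ hp]
    apply Fin.ext
    change σ (clip n i).val = _
    rw [clip_val hi, clip_val hσ]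
  choose g hg using key
  refine ⟨g, fun i => ?_⟩
  filter_upwards [eventually_ge_atTop (max i (σ i))] with n hn
  exact hg n i (le_trans (le_max_left _ _) hn) (le_trans (le_max_right _ _) hn)

theorem Conv.inv {g : ∀ n, Equiv.Perm (Fin (n + 1))} {σ : Equiv.Perm ℕ} (h : Conv g σ) :
    Conv (fun n => (g n)⁻¹) σ.symm := by
  intro i
  filter_upwards [h (σ.symm i)] with n hn
  rw [Equiv.apply_symm_apply] at hn
  rw [← hn]
  exact Equiv.symm_apply_apply (g n) _

/-- The carrier of the coding structures. -/
abbrev Car : Type := Code × (Σ N : ℕ, (k : Fin N) → F k)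

/-- The codes present in the structure coding `D`: those in `D` and all those of label `0`. -/
def Hat (D : Code → Prop) (q : Code) : Prop := q.1 = 0 ∨ D q

open Classical in
/-- The code effectively used. -/
noncomputable def eff (D : Code → Prop) (q : Code) : Code := if Hat D q then q else (0, [])

theorem hat_eff (D : Code → Prop) (q : Code) : Hat D (eff D q) := by
  unfold eff
  split_ifs with h
  · exact h
  · exact Or.inl rfl

theorem eff_of_hat {D : Code → Prop} {q : Code} (h : Hat D q) : eff D q = q := by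
  rw [eff, if_pos h]

/-- The labelling. -/
noncomputable def lab (D : Code → Prop) (a : Car) (n : ℕ) : F n :=
  if h : n < a.2.1 then a.2.2 ⟨n, h⟩ else germ (eff D a.1) n

theorem exists_lab (D : Code → Prop) {q : Code} (hq : Hat D q) (w : ∀ n, F n)
    (hw : ∀ᶠ n in atTop, w n = germ q n) (N0 : ℕ) :
    ∃ N ≥ N0, lab D (q, ⟨N, fun k => w k⟩) = w := by
  obtain ⟨N1, hN1⟩ := eventually_atTop.1 hw
  refine ⟨max N0 N1, le_max_left _ _, ?_⟩
  funext n
  unfold lab
  by_cases h : n < max N0 N1
  · simp only [h, dif_pos]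
  · simp only [h, dif_neg, not_false_iff]
    rw [eff_of_hat hq, hN1 n (le_trans (le_max_right _ _) (not_lt.1 h))]

theorem lab_eventually (D : Code → Prop) (a : Car) :
    ∀ᶠ n in atTop, lab D a n = germ (eff D a.1) n := by
  filter_upwards [eventually_ge_atTop a.2.1] with n hn
  unfold lab
  rw [dif_neg (not_lt.2 hn)]

theorem lab_infinite (D : Code → Prop) (a : Car) : (lab D ⁻¹' {lab D a}).Infinite := by
  have key : ∀ N0, ∃ N ≥ N0, lab D (eff D a.1, ⟨N, fun k => lab D a k⟩) = lab D a :=
    fun N0 => exists_lab D (hat_eff D a.1) (lab D a) (lab_eventually D a) N0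
  intro hfin
  have hfin2 : ((fun b : Car => b.2.1) '' (lab D ⁻¹' {lab D a})).Finite := hfin.image _
  obtain ⟨M, hM⟩ := hfin2.bddAbove
  obtain ⟨N, hN, h⟩ := key (M + 1)
  have := hM ⟨_, h, rfl⟩
  simp only at this
  omega

instance : Countable Car := by infer_instance
instance : Infinite Car := by infer_instance

theorem push {D D' : Code → Prop} {g : ∀ n, Equiv.Perm (Fin (n + 1))} {σ : Equiv.Perm ℕ}
    (h : Conv g σ) (hD : ∀ q, Hat D q → Hat D' (cact σ q)) (a : Car) :
    ∃ b, ∀ n, lab D' b n = act (g n) (lab D a n) := by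
  have h1 : ∀ᶠ n in atTop, act (g n) (lab D a n) = germ (cact σ (eff D a.1)) n := by
    filter_upwards [lab_eventually D a, act_germ h (eff D a.1)] with n h1 h2
    rw [h1, h2]
  obtain ⟨N, -, hN⟩ := exists_lab D' (hD _ (hat_eff D a.1)) _ h1 0
  exact ⟨_, fun n => congrFun hN n⟩

/-- The coding structures of conjugate sets are isomorphic. -/
theorem exists_isIso_of_conj {D D' : Code → Prop} {σ : Equiv.Perm ℕ}
    (hD : ∀ q, Hat D q ↔ Hat D' (cact σ q)) : ∃ e : Car ≃ Car, IsIso (lab D) (lab D') e := by
  obtain ⟨g, hg⟩ := exists_conv σ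
  have hD2 : ∀ q, Hat D' q → Hat D (cact σ.symm q) := by
    intro q hq
    rw [hD, cact_cact_symm]
    exact hq
  have hr : Set.range (fun a : Car => (fun n => act (g n) (lab D a n) : ∀ n, F n)) =
      Set.range (lab D') := by
    apply Set.Subset.antisymm
    · rintro _ ⟨a, rfl⟩
      obtain ⟨b, hb⟩ := push hg (fun q => (hD q).1) a
      exact ⟨b, funext hb⟩
    · rintro _ ⟨b, rfl⟩
      obtain ⟨a, ha⟩ := push hg.inv hD2 b
      refine ⟨a, ?_⟩
      funext n
      simp only
      rw [ha n, act_act_inv]
  have hf : ∀ a, ((fun a : Car => (fun n => act (g n) (lab D a n) : ∀ n, F n)) ⁻¹'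
      {(fun n => act (g n) (lab D a n) : ∀ n, F n)}).Infinite := by
    intro a
    refine (lab_infinite D a).mono ?_
    intro b hb
    have hb' : lab D b = lab D a := hb
    simp only [Set.mem_preimage, Set.mem_singleton_iff]
    rw [hb']
  obtain ⟨e, he⟩ := exists_equiv_of_fibers _ _ hf (lab_infinite D') hr
  exact ⟨e, isIso_of_act _ _ e g (fun a n => congrFun (he a) n)⟩

/-- Each base letter occurs. -/
theorem lab_base (D : Code → Prop) (n : ℕ) : ∃ a, lab D a n = base n := by
  refine ⟨((0, []), ⟨n + 1, fun k => base k⟩), ?_⟩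
  unfold lab
  simp only
  rw [dif_pos (Nat.lt_succ_self n)]

theorem pull {D D' : Code → Prop} {g : ∀ n, Equiv.Perm (Fin (n + 1))} (e : Car → Car)
    (he : ∀ a n, lab D' (e a) n = act (g n) (lab D a n)) {q : Code} (hq : Hat D q) :
    ∃ q', Hat D' q' ∧ ∀ᶠ n in atTop, act (g n) (germ q n) = germ q' n := by
  let a : Car := (q, ⟨0, fun k => k.elim0⟩)
  refine ⟨eff D' (e a).1, hat_eff _ _, ?_⟩
  filter_upwards [lab_eventually D' (e a), lab_eventually D a] with n h1 h2
  rw [← h1, he, h2]
  simp only [a, eff_of_hat hq]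

theorem exists_limit {D D' : Code → Prop} {g : ∀ n, Equiv.Perm (Fin (n + 1))} (e : Car → Car)
    (he : ∀ a n, lab D' (e a) n = act (g n) (lab D a n)) : ∃ σ : ℕ → ℕ, Conv g σ := by
  have key : ∀ i : ℕ, ∃ i' : ℕ, ∀ᶠ n in atTop, g n (clip n i) = clip n i' := by
    intro i
    obtain ⟨⟨s', l'⟩, -, h⟩ := pull e he (q := (0, [i])) (Or.inl rfl)
    have h0 : ∃ i', l'[0]? = some i' := by
      obtain ⟨n, hn⟩ := h.exists
      have := congrFun (congrArg Prod.snd hn) ⟨0, Nat.succ_pos n⟩
      simp only [act, germ, List.getElem?_cons_zero, Option.map_some] at this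
      rcases hx : l'[0]? with _ | x
      · rw [hx] at this; simp at this
      · exact ⟨x, rfl⟩
    obtain ⟨i', hi'⟩ := h0
    refine ⟨i', ?_⟩
    filter_upwards [h] with n hn
    have := congrFun (congrArg Prod.snd hn) ⟨0, Nat.succ_pos n⟩
    simp only [act, germ, List.getElem?_cons_zero, Option.map_some] at this
    rw [hi'] at this
    simpa using this
  choose σ hσ using key
  exact ⟨σ, hσ⟩

/-- Isomorphic coding structures come from conjugate sets. -/
theorem conj_of_isIso {D D' : Code → Prop} (e : Car ≃ Car) (he : IsIso (lab D) (lab D') e) :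
    ∃ σ : Equiv.Perm ℕ, ∀ q, Hat D q ↔ Hat D' (cact σ q) := by
  obtain ⟨g, hg⟩ := act_of_isIso _ _ (lab_base D) e he
  have hg' : ∀ b n, lab D (e.symm b) n = act (g n)⁻¹ (lab D' b n) := by
    intro b n
    have := hg (e.symm b) n
    rw [Equiv.apply_symm_apply] at this
    rw [this, act_inv_act]
  obtain ⟨σ, hσ⟩ := exists_limit e hg
  obtain ⟨τ, hτ⟩ := exists_limit (g := fun n => (g n)⁻¹) e.symm hg'
  have h1 : ∀ i, τ (σ i) = i := by
    intro i
    obtain ⟨n, h1, h2, h3, h4⟩ := (((hσ i).and (hτ (σ i))).and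
      ((eventually_ge_atTop (τ (σ i))).and (eventually_ge_atTop i))).exists.imp
      (fun n h => (⟨h.1.1, h.1.2, h.2.1, h.2.2⟩ : _ ∧ _ ∧ _ ∧ _))
    apply clip_inj h3 h4
    rw [← h2, ← h1]
    simp
  have h2 : ∀ i, σ (τ i) = i := by
    intro i
    obtain ⟨n, h1, h2, h3, h4⟩ := (((hτ i).and (hσ (τ i))).and
      ((eventually_ge_atTop (σ (τ i))).and (eventually_ge_atTop i))).exists.imp
      (fun n h => (⟨h.1.1, h.1.2, h.2.1, h.2.2⟩ : _ ∧ _ ∧ _ ∧ _))
    apply clip_inj h3 h4
    rw [← h2, ← h1]
    simp
  let S : Equiv.Perm ℕ := ⟨σ, τ, h1, h2⟩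
  have hS : Conv g S := hσ
  have hS' : Conv (fun n => (g n)⁻¹) S.symm := hτ
  refine ⟨S, fun q => ⟨fun hq => ?_, fun hq => ?_⟩⟩
  · obtain ⟨q', hq', h⟩ := pull e hg hq
    have : cact S q = q' := by
      apply germ_inj
      filter_upwards [h, act_germ hS q] with n a b
      rw [← b, a]
    rw [this]
    exact hq'
  · obtain ⟨q', hq', h⟩ := pull (g := fun n => (g n)⁻¹) e.symm hg' hq
    have : cact S.symm (cact S q) = q' := by
      apply germ_inj
      filter_upwards [h, act_germ hS' (cact S q)] with n a b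
      rw [← b, a]
    rw [cact_symm_cact] at this
    rw [this]
    exact hq'

end Pool.MPcae7fa
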