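import Mathlib

/-!
# The exponential `2^r` of a countable linear order

`2^r` is isomorphic to `2^(r+1)` if and only if `r` is not well founded.
-/

namespace Pool.MPcae7fa

/-- The exponential 2^r of a strict order r: finite sets compared at the largest difference. -/
def cl {α : Type} (r : α → α → Prop) (A B : Finset α) : Prop :=
  ∃ b ∈ B, b ∉ A ∧ ∀ c, r b c → (c ∈ A ↔ c ∈ B)

/-- Add a largest element. -/
def topRel {α : Type} (r : α → α → Prop) : Option α → Option α → Prop
  | some a, some b => r a b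
  | some _, none => True
  | none, _ => False

namespace ColexAux

theorem topRel_sto {α : Type} (r : α → α → Prop) (hr : IsStrictTotalOrder α r) :
    IsStrictTotalOrder (Option α) (topRel r) where
  irrefl := by
    rintro (_ | a)
    · exact fun h => h
    · exact fun h => hr.irrefl a h
  trans := by
    rintro (_ | a) (_ | b) (_ | c) h1 h2
    · exact h1
    · exact h1
    · exact h1
    · exact h1
    · exact h2.elim
    · exact h2.elim
    · trivial
    · exact hr.trans a b c h1 h2
  trichotomous := by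
    rintro (_ | a) (_ | b) h1 h2
    · rfl
    · exact (h2 trivial).elim
    · exact (h1 trivial).elim
    · exact congrArg some (hr.trichotomous a b h1 h2)

theorem topRel_acc_some {α : Type} (r : α → α → Prop) (a : α) :
    Acc (topRel r) (some a) ↔ Acc r a := by
  constructor
  · intro h
    have : ∀ x, Acc (topRel r) x → ∀ a, x = some a → Acc r a := by
      intro x hx
      induction hx with
      | intro x _ ih =>
        intro a ha
        subst ha
        exact Acc.intro a fun b hb => ih (some b) hb b rfl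
    exact this _ h a rfl
  · intro h
    induction h with
    | intro a _ ih =>
      refine Acc.intro _ ?_
      rintro (_ | b) hb
      · exact hb.elim
      · exact ih b hb

theorem topRel_wf {α : Type} (r : α → α → Prop) (h : WellFounded r) :
    WellFounded (topRel r) := by
  have h1 : ∀ a, Acc (topRel r) (some a) := fun a => (topRel_acc_some r a).2 (h.apply a)
  refine ⟨?_⟩
  rintro (_ | a)
  · refine Acc.intro _ ?_
    rintro (_ | b) hb
    · exact hb.elim
    · exact h1 b
  · exact h1 a

/-- A nonempty finite set has a maximal element. -/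
theorem exists_max {α : Type} (r : α → α → Prop) (hr : IsStrictTotalOrder α r)
    (P : α → Prop) (S : Finset α) (hS : ∃ x ∈ S, P x) :
    ∃ m ∈ S, P m ∧ ∀ c ∈ S, P c → ¬ r m c := by
  classical
  let _ := linearOrderOfSTO r
  have hne : (S.filter P).Nonempty := by
    obtain ⟨x, hx, hPx⟩ := hS
    exact ⟨x, Finset.mem_filter.2 ⟨hx, hPx⟩⟩
  obtain ⟨m, hm, h⟩ := (S.filter P).exists_max_image id hne
  rw [Finset.mem_filter] at hm
  refine ⟨m, hm.1, hm.2, fun c hc hPc hmc => ?_⟩
  have h1 := h c (Finset.mem_filter.2 ⟨hc, hPc⟩)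
  exact absurd h1 (not_le.2 (show m < c from hmc))

theorem cl_irrefl {α : Type} (r : α → α → Prop) (A : Finset α) : ¬ cl r A A := by
  rintro ⟨b, hb, hb', _⟩
  exact hb' hb

theorem cl_trans {α : Type} (r : α → α → Prop) (hr : IsStrictTotalOrder α r)
    {A B C : Finset α} (h1 : cl r A B) (h2 : cl r B C) : cl r A C := by
  obtain ⟨b, hb, hbA, hb'⟩ := h1
  obtain ⟨c, hc, hcB, hc'⟩ := h2
  by_cases hbc : r b c
  · refine ⟨c, hc, fun h => hcB ((hb' c hbc).1 h), fun d hd => ?_⟩
    exact (hb' d (hr.trans _ _ _ hbc hd)).trans (hc' d hd)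
  · by_cases hcb : r c b
    · refine ⟨b, (hc' b hcb).1 hb, hbA, fun d hd => ?_⟩
      exact (hb' d hd).trans (hc' d (hr.trans _ _ _ hcb hd))
    · exact absurd (hr.trichotomous b c hbc hcb) (fun h => hcB (h ▸ hb))

theorem cl_trich {α : Type} (r : α → α → Prop) (hr : IsStrictTotalOrder α r)
    {A B : Finset α} (h1 : ¬ cl r A B) (h2 : ¬ cl r B A) : A = B := by
  classical
  by_contra hne
  have hex : ∃ x ∈ A ∪ B, ¬ (x ∈ A ↔ x ∈ B) := by
    by_contra hcon
    push Not at hcon
    apply hne
    ext x
    by_cases hx : x ∈ A ∪ B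
    · exact hcon x hx
    · rw [Finset.mem_union, not_or] at hx
      exact iff_of_false hx.1 hx.2
  obtain ⟨m, hm, hPm, hmax⟩ := exists_max r hr _ _ hex
  have hmax' : ∀ c, r m c → (c ∈ A ↔ c ∈ B) := by
    intro c hc
    by_cases hx : c ∈ A ∪ B
    · by_contra hcon
      exact hmax c hx hcon hc
    · rw [Finset.mem_union, not_or] at hx
      exact iff_of_false hx.1 hx.2
  by_cases hA : m ∈ A
  · have hB : m ∉ B := fun h => hPm ⟨fun _ => h, fun _ => hA⟩
    exact h2 ⟨m, hA, hB, fun c hc => (hmax' c hc).symm⟩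
  · have hB : m ∈ B := by
      by_contra h
      exact hPm ⟨fun h' => absurd h' hA, fun h' => absurd h' h⟩
    exact h1 ⟨m, hB, hA, hmax'⟩

theorem cl_sto {α : Type} (r : α → α → Prop) (hr : IsStrictTotalOrder α r) :
    IsStrictTotalOrder (Finset α) (cl r) where
  irrefl := cl_irrefl r
  trans _ _ _ := cl_trans r hr
  trichotomous _ _ := cl_trich r hr

theorem cl_wf {α : Type} (r : α → α → Prop) (hr : IsStrictTotalOrder α r)
    (h : WellFounded r) : WellFounded (cl r) := by
  classical
  have _ : Std.Trichotomous (Function.swap r) :=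
    ⟨fun a b h1 h2 => hr.trichotomous a b h2 h1⟩
  have hL : WellFounded (Finsupp.Lex (Function.swap r) (fun m n : ℕ => m < n)) :=
    Finsupp.Lex.wellFounded' (fun n => Nat.not_lt_zero n) wellFounded_lt h
  let ind : Finset α → (α →₀ ℕ) := fun A => Finsupp.indicator A (fun _ _ => 1)
  have hind : ∀ A x, ind A x = if x ∈ A then 1 else 0 := by
    intro A x
    simp [ind, Finsupp.indicator_apply]
  refine Subrelation.wf ?_ (InvImage.wf ind hL)
  rintro A B ⟨b, hb, hbA, hb'⟩
  change Finsupp.Lex _ _ _ _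
  rw [Finsupp.lex_def]
  refine ⟨b, fun c hc => ?_, ?_⟩
  · have := hb' c hc
    rw [hind, hind]
    by_cases h1 : c ∈ A
    · rw [if_pos h1, if_pos (this.1 h1)]
    · rw [if_neg h1, if_neg (fun h2 => h1 (this.2 h2))]
  · rw [hind, hind, if_pos hb, if_neg hbA]
    exact Nat.zero_lt_one

theorem cl_map_some {α : Type} (r : α → α → Prop) {A B : Finset α} (h : cl r A B) :
    cl (topRel r) (A.map Function.Embedding.some) (B.map Function.Embedding.some) := by
  obtain ⟨b, hb, hbA, hb'⟩ := h
  refine ⟨some b, ?_, ?_, ?_⟩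
  · exact Finset.mem_map.2 ⟨b, hb, rfl⟩
  · intro h
    obtain ⟨c, hc, hcb⟩ := Finset.mem_map.1 h
    exact hbA ((Option.some_injective _ hcb) ▸ hc)
  · rintro (_ | c) hc
    · refine iff_of_false ?_ ?_
      · intro h
        obtain ⟨c, hc, hcb⟩ := Finset.mem_map.1 h
        exact absurd hcb (by simp)
      · intro h
        obtain ⟨c, hc, hcb⟩ := Finset.mem_map.1 h
        exact absurd hcb (by simp)
    · have := hb' c hc
      constructor
      · intro h
        obtain ⟨d, hd, hdc⟩ := Finset.mem_map.1 h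
        rw [Option.some_injective _ hdc] at hd
        exact Finset.mem_map.2 ⟨c, this.1 hd, rfl⟩
      · intro h
        obtain ⟨d, hd, hdc⟩ := Finset.mem_map.1 h
        rw [Option.some_injective _ hdc] at hd
        exact Finset.mem_map.2 ⟨c, this.2 hd, rfl⟩

theorem none_not_mem_map {α : Type} (A : Finset α) :
    (none : Option α) ∉ A.map Function.Embedding.some := by
  intro h
  obtain ⟨c, hc, hcb⟩ := Finset.mem_map.1 h
  exact absurd hcb (by simp)

theorem not_wf {α : Type} (r : α → α → Prop) (hr : IsStrictTotalOrder α r)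
    (e : Finset α ≃ Finset (Option α))
    (he : ∀ A B, cl r A B ↔ cl (topRel r) (e A) (e B)) : ¬ WellFounded r := by
  intro hwf
  have hW := cl_wf (topRel r) (topRel_sto r hr) (topRel_wf r hwf)
  let f : Finset (Option α) → Finset (Option α) :=
    fun B => (e.symm B).map Function.Embedding.some
  have hf : ∀ A B, cl (topRel r) A B → cl (topRel r) (f A) (f B) := by
    intro A B h
    apply cl_map_some
    rw [he, e.apply_symm_apply, e.apply_symm_apply]
    exact h
  have hex : ∃ B, cl (topRel r) (f B) B := by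
    refine ⟨{none}, none, by simp, none_not_mem_map _, ?_⟩
    intro c hc
    exact hc.elim
  let S : Set (Finset (Option α)) := {B | cl (topRel r) (f B) B}
  have hS : S.Nonempty := hex
  have hm := hW.min_mem S hS
  exact hW.not_lt_min S (hf _ _ hm) hm

/-- Below every element there are elements outside of a given finite set. -/
theorem exists_below {K : Type} (s : K → K → Prop) (hs : IsStrictTotalOrder K s)
    (hmin : ∀ a, ∃ b, s b a) (A : Finset K) (b : K) : ∃ q, s q b ∧ q ∉ A := by
  classical
  have hsw : IsStrictTotalOrder K (Function.swap s) :=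
    { irrefl := fun a => hs.irrefl a
      trans := fun a b c h1 h2 => hs.trans c b a h2 h1
      trichotomous := fun a b h1 h2 => hs.trichotomous a b h2 h1 }
  obtain ⟨m, hm, _, hmin'⟩ := exists_max (Function.swap s) hsw (fun _ => True) (insert b A)
    ⟨b, Finset.mem_insert_self b A, trivial⟩
  obtain ⟨q, hq⟩ := hmin m
  have hqA : q ∉ insert b A := fun h => hmin' q h trivial hq
  have hqb : q ∉ A := fun h => hqA (Finset.mem_insert_of_mem h)
  refine ⟨q, ?_, hqb⟩
  have h1 : ¬ s b m := fun h => hmin' b (Finset.mem_insert_self b A) trivial h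
  by_cases h2 : s m b
  · exact hs.trans _ _ _ hq h2
  · have := hs.trichotomous m b h2 h1
    exact this ▸ hq

theorem cl_insert {K : Type} [DecidableEq K] (s : K → K → Prop) (hs : IsStrictTotalOrder K s)
    (A : Finset K) (q : K) (hq : q ∉ A) : cl s A (insert q A) := by
  refine ⟨q, Finset.mem_insert_self q A, hq, fun c hc => ?_⟩
  have hne : c ≠ q := fun h => hs.irrefl q (h ▸ hc)
  rw [Finset.mem_insert]
  exact ⟨fun h => Or.inr h, fun h => h.resolve_left hne⟩

theorem cl_between {K : Type} [DecidableEq K] (s : K → K → Prop) (hs : IsStrictTotalOrder K s)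
    (hmin : ∀ a, ∃ b, s b a) (A B : Finset K) (h : cl s A B) :
    ∃ C : Finset K, C.Nonempty ∧ cl s A C ∧ cl s C B := by
  obtain ⟨b, hb, hbA, hb'⟩ := h
  obtain ⟨q, hq, hqA⟩ := exists_below s hs hmin A b
  refine ⟨insert q A, Finset.insert_nonempty q A, cl_insert s hs A q hqA, b, hb, ?_, ?_⟩
  · rw [Finset.mem_insert, not_or]
    exact ⟨fun h => hs.irrefl q (h ▸ hq), hbA⟩
  · intro c hc
    have hne : c ≠ q := fun h => hs.irrefl q (hs.trans _ _ _ hq (h ▸ hc))
    rw [Finset.mem_insert, ← hb' c hc]
    exact ⟨fun h => h.resolve_left hne, fun h => Or.inr h⟩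

theorem cl_no_min {K : Type} (s : K → K → Prop) (hs : IsStrictTotalOrder K s)
    (hmin : ∀ a, ∃ b, s b a) (A : Finset K) (hA : A.Nonempty) :
    ∃ C : Finset K, C.Nonempty ∧ cl s C A := by
  obtain ⟨x, hx⟩ := hA
  obtain ⟨a, ha, _, hmax⟩ := exists_max s hs (fun _ => True) A ⟨x, hx, trivial⟩
  obtain ⟨q, hq⟩ := hmin a
  refine ⟨{q}, Finset.singleton_nonempty q, a, ha, ?_, ?_⟩
  · rw [Finset.mem_singleton]
    exact fun h => hs.irrefl q (h ▸ hq)
  · intro c hc
    refine iff_of_false ?_ ?_
    · rw [Finset.mem_singleton]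
      exact fun h => hs.irrefl q (hs.trans _ _ _ hq (h ▸ hc))
    · exact fun h => hmax c h trivial hc

/-- Nonempty finite sets. -/
def NE (K : Type) : Type := {A : Finset K // A.Nonempty}

/-- The linear order on the nonempty finite sets. -/
@[reducible] noncomputable def ord (K : Type) (s : K → K → Prop) (hs : IsStrictTotalOrder K s) :
    LinearOrder (NE K) := by
  classical
  haveI : IsStrictTotalOrder (NE K) (fun A B => cl s A.1 B.1) :=
    { irrefl := fun A => cl_irrefl s A.1
      trans := fun A B C => cl_trans s hs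
      trichotomous := fun A B h1 h2 => Subtype.ext (cl_trich s hs h1 h2) }
  exact linearOrderOfSTO (fun A B => cl s A.1 B.1)

theorem dense_iso {K L : Type} [Countable K] [Countable L]
    (s : K → K → Prop) (hs : IsStrictTotalOrder K s) (t : L → L → Prop)
    (ht : IsStrictTotalOrder L t) (hK : Nonempty K) (hL : Nonempty L)
    (hmK : ∀ a, ∃ b, s b a) (hmL : ∀ a, ∃ b, t b a) :
    ∃ f : NE K ≃ NE L, ∀ A B, cl s A.1 B.1 ↔ cl t (f A).1 (f B).1 := by
  classical
  let _ := ord K s hs
  let _ := ord L t ht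
  have c1 : Countable (NE K) := inferInstanceAs (Countable {A : Finset K // A.Nonempty})
  have c2 : Countable (NE L) := inferInstanceAs (Countable {A : Finset L // A.Nonempty})
  have d1 : DenselyOrdered (NE K) := by
    refine ⟨fun A B h => ?_⟩
    obtain ⟨C, hC, h1, h2⟩ := cl_between s hs hmK A.1 B.1 h
    exact ⟨⟨C, hC⟩, h1, h2⟩
  have d2 : DenselyOrdered (NE L) := by
    refine ⟨fun A B h => ?_⟩
    obtain ⟨C, hC, h1, h2⟩ := cl_between t ht hmL A.1 B.1 h
    exact ⟨⟨C, hC⟩, h1, h2⟩
  have m1 : NoMinOrder (NE K) := by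
    refine ⟨fun A => ?_⟩
    obtain ⟨C, hC, h1⟩ := cl_no_min s hs hmK A.1 A.2
    exact ⟨⟨C, hC⟩, h1⟩
  have m2 : NoMinOrder (NE L) := by
    refine ⟨fun A => ?_⟩
    obtain ⟨C, hC, h1⟩ := cl_no_min t ht hmL A.1 A.2
    exact ⟨⟨C, hC⟩, h1⟩
  have M1 : NoMaxOrder (NE K) := by
    refine ⟨fun A => ?_⟩
    obtain ⟨x, _⟩ := A.2
    obtain ⟨q, _, hq⟩ := exists_below s hs hmK A.1 x
    exact ⟨⟨insert q A.1, Finset.insert_nonempty q A.1⟩, cl_insert s hs A.1 q hq⟩
  have M2 : NoMaxOrder (NE L) := by
    refine ⟨fun A => ?_⟩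
    obtain ⟨x, _⟩ := A.2
    obtain ⟨q, _, hq⟩ := exists_below t ht hmL A.1 x
    exact ⟨⟨insert q A.1, Finset.insert_nonempty q A.1⟩, cl_insert t ht A.1 q hq⟩
  have n1 : Nonempty (NE K) :=
    hK.elim fun x => ⟨⟨{x}, Finset.singleton_nonempty x⟩⟩
  have n2 : Nonempty (NE L) :=
    hL.elim fun x => ⟨⟨{x}, Finset.singleton_nonempty x⟩⟩
  obtain ⟨f⟩ := Order.iso_of_countable_dense (NE K) (NE L)
  refine ⟨f.toEquiv, fun A B => ?_⟩
  exact (f.lt_iff_lt (x := A) (y := B)).symm

theorem full_iso {K L : Type} [Countable K] [Countable L]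
    (s : K → K → Prop) (hs : IsStrictTotalOrder K s) (t : L → L → Prop)
    (ht : IsStrictTotalOrder L t) (hK : Nonempty K) (hL : Nonempty L)
    (hmK : ∀ a, ∃ b, s b a) (hmL : ∀ a, ∃ b, t b a) :
    ∃ g : Finset K → Finset L, Function.Surjective g ∧
      ∀ A B, cl s A B → cl t (g A) (g B) := by
  classical
  obtain ⟨f, hf⟩ := dense_iso s hs t ht hK hL hmK hmL
  refine ⟨fun A => if h : A.Nonempty then (f ⟨A, h⟩).1 else ∅, ?_, ?_⟩
  · intro B
    by_cases hB : B.Nonempty
    · refine ⟨(f.symm ⟨B, hB⟩).1, ?_⟩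
      have h1 := (f.symm ⟨B, hB⟩).2
      simp only [dif_pos h1]
      have h3 : f (f.symm ⟨B, hB⟩) = ⟨B, hB⟩ := f.apply_symm_apply _
      exact congrArg Subtype.val h3
    · refine ⟨∅, ?_⟩
      rw [Finset.not_nonempty_iff_eq_empty] at hB
      simp [hB]
  · intro A B h
    have hB : B.Nonempty := by
      obtain ⟨b, hb, _⟩ := h
      exact ⟨b, hb⟩
    simp only [dif_pos hB]
    by_cases hA : A.Nonempty
    · rw [dif_pos hA]
      exact (hf ⟨A, hA⟩ ⟨B, hB⟩).1 h
    · rw [dif_neg hA]
      obtain ⟨x, hx⟩ := (f ⟨B, hB⟩).2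
      obtain ⟨m, hm, _, hmax⟩ := exists_max t ht (fun _ => True) _ ⟨x, hx, trivial⟩
      refine ⟨m, hm, Finset.notMem_empty m, fun c hc => ?_⟩
      exact iff_of_false (Finset.notMem_empty c) (fun h' => hmax c h' trivial hc)

theorem iso_of_not_wf {α : Type} [Countable α] (r : α → α → Prop)
    (hr : IsStrictTotalOrder α r) (hwf : ¬ WellFounded r) :
    ∃ e : Finset α ≃ Finset (Option α), ∀ A B, cl r A B ↔ cl (topRel r) (e A) (e B) := by
  classical
  have hrt := topRel_sto r hr
  -- the inaccessible parts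
  let K := {a : α // ¬ Acc r a}
  let L := {x : Option α // ¬ Acc (topRel r) x}
  let s : K → K → Prop := fun a b => r a.1 b.1
  let t : L → L → Prop := fun a b => topRel r a.1 b.1
  have hs : IsStrictTotalOrder K s :=
    { irrefl := fun a => hr.irrefl a.1
      trans := fun a b c => hr.trans a.1 b.1 c.1
      trichotomous := fun a b h1 h2 => Subtype.ext (hr.trichotomous a.1 b.1 h1 h2) }
  have ht : IsStrictTotalOrder L t :=
    { irrefl := fun a => hrt.irrefl a.1
      trans := fun a b c => hrt.trans a.1 b.1 c.1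
      trichotomous := fun a b h1 h2 => Subtype.ext (hrt.trichotomous a.1 b.1 h1 h2) }
  have hmK : ∀ a, ∃ b, s b a := by
    intro a
    by_contra hcon
    refine a.2 (Acc.intro _ fun b hb => ?_)
    by_contra hb'
    exact hcon ⟨⟨b, hb'⟩, hb⟩
  have hmL : ∀ a, ∃ b, t b a := by
    intro a
    by_contra hcon
    refine a.2 (Acc.intro _ fun b hb => ?_)
    by_contra hb'
    exact hcon ⟨⟨b, hb'⟩, hb⟩
  have hexa : ∃ a, ¬ Acc r a := by
    by_contra hcon
    push Not at hcon
    exact hwf ⟨hcon⟩
  obtain ⟨a0, ha0⟩ := hexa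
  have hK : Nonempty K := ⟨⟨a0, ha0⟩⟩
  have hL : Nonempty L := ⟨⟨some a0, fun h => ha0 ((topRel_acc_some r a0).1 h)⟩⟩
  obtain ⟨g, hgs, hg⟩ := full_iso s hs t ht hK hL hmK hmL
  have hnone : ¬ Acc (topRel r) none := fun h =>
    ha0 ((topRel_acc_some r a0).1 (h.inv (y := some a0) trivial))
  let up : Finset α → Finset K := fun A => A.subtype (fun a => ¬ Acc r a)
  let e : Finset α → Finset (Option α) := fun A =>
    (g (up A)).map (Function.Embedding.subtype _) ∪
      (A.filter (fun a => Acc r a)).map Function.Embedding.some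
  have hmem1 : ∀ A (x : L), x.1 ∈ e A ↔ x ∈ g (up A) := by
    intro A x
    constructor
    · intro h
      rcases Finset.mem_union.1 h with h | h
      · obtain ⟨y, hy, hyx⟩ := Finset.mem_map.1 h
        have : y = x := Subtype.ext hyx
        exact this ▸ hy
      · obtain ⟨y, hy, hyx⟩ := Finset.mem_map.1 h
        have h1 := (Finset.mem_filter.1 hy).2
        have h2 := (topRel_acc_some r y).2 h1
        have h3 : some y = x.1 := hyx
        exact absurd (h3 ▸ h2) x.2
    · intro h
      exact Finset.mem_union_left _ (Finset.mem_map.2 ⟨x, h, rfl⟩)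
  have hmem2 : ∀ A a, Acc r a → (some a ∈ e A ↔ a ∈ A) := by
    intro A a ha
    constructor
    · intro h
      rcases Finset.mem_union.1 h with h | h
      · obtain ⟨y, hy, hyx⟩ := Finset.mem_map.1 h
        have h3 : y.1 = some a := hyx
        have h2 := (topRel_acc_some r a).2 ha
        exact absurd (h3 ▸ h2) y.2
      · obtain ⟨y, hy, hyx⟩ := Finset.mem_map.1 h
        have h3 : some y = some a := hyx
        have h4 : y = a := Option.some_injective _ h3
        exact h4 ▸ (Finset.mem_filter.1 hy).1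
    · intro h
      exact Finset.mem_union_right _ (Finset.mem_map.2 ⟨a, Finset.mem_filter.2 ⟨h, ha⟩, rfl⟩)
  have hup : ∀ A (x : K), x ∈ up A ↔ x.1 ∈ A := fun A x => Finset.mem_subtype
  have hmono : ∀ A B, cl r A B → cl (topRel r) (e A) (e B) := by
    rintro A B ⟨b, hb, hbA, hb'⟩
    by_cases hacc : Acc r b
    · have hup' : up A = up B := by
        ext x
        rw [hup, hup]
        apply hb'
        by_contra hcon
        by_cases h1 : r x.1 b
        · exact x.2 (hacc.inv h1)
        · exact x.2 ((hr.trichotomous _ _ hcon h1) ▸ hacc)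
      refine ⟨some b, (hmem2 B b hacc).2 hb, fun h => hbA ((hmem2 A b hacc).1 h), ?_⟩
      intro c hc
      by_cases hcacc : Acc (topRel r) c
      · rcases c with _ | c
        · exact absurd hcacc hnone
        · have h1 := (topRel_acc_some r c).1 hcacc
          rw [hmem2 A c h1, hmem2 B c h1]
          exact hb' c hc
      · rw [hmem1 A ⟨c, hcacc⟩, hmem1 B ⟨c, hcacc⟩, hup']
    · have h1 : cl s (up A) (up B) := by
        refine ⟨⟨b, hacc⟩, (hup B ⟨b, hacc⟩).2 hb, fun h => hbA ((hup A ⟨b, hacc⟩).1 h), ?_⟩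
        intro c hc
        rw [hup, hup]
        exact hb' c.1 hc
      obtain ⟨b1, hb1, hb1A, hb1'⟩ := hg _ _ h1
      refine ⟨b1.1, (hmem1 B b1).2 hb1, fun h => hb1A ((hmem1 A b1).1 h), ?_⟩
      intro c hc
      have hcacc : ¬ Acc (topRel r) c := fun h => b1.2 (h.inv hc)
      rw [hmem1 A ⟨c, hcacc⟩, hmem1 B ⟨c, hcacc⟩]
      exact hb1' ⟨c, hcacc⟩ hc
  have hiff : ∀ A B, cl r A B ↔ cl (topRel r) (e A) (e B) := by
    intro A B
    refine ⟨hmono A B, fun h => ?_⟩
    by_contra h1
    by_cases h2 : cl r B A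
    · exact cl_irrefl (topRel r) _ (cl_trans (topRel r) hrt h (hmono _ _ h2))
    · have := cl_trich r hr h1 h2
      subst this
      exact cl_irrefl (topRel r) _ h
  have hinj : Function.Injective e := by
    intro A B h
    by_contra hne
    by_cases h1 : cl r A B
    · have := hmono _ _ h1
      rw [h] at this
      exact cl_irrefl _ _ this
    · by_cases h2 : cl r B A
      · have := hmono _ _ h2
        rw [h] at this
        exact cl_irrefl _ _ this
      · exact hne (cl_trich r hr h1 h2)
  have hsurj : Function.Surjective e := by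
    intro B
    obtain ⟨P, hP⟩ := hgs (B.subtype (fun x => ¬ Acc (topRel r) x))
    let A : Finset α := P.map (Function.Embedding.subtype _) ∪
      (Finset.eraseNone B).filter (fun a => Acc r a)
    have hA1 : up A = P := by
      ext x
      rw [hup]
      constructor
      · intro h
        rcases Finset.mem_union.1 h with h | h
        · obtain ⟨y, hy, hyx⟩ := Finset.mem_map.1 h
          have : y = x := Subtype.ext hyx
          exact this ▸ hy
        · exact absurd (Finset.mem_filter.1 h).2 x.2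
      · intro h
        exact Finset.mem_union_left _ (Finset.mem_map.2 ⟨x, h, rfl⟩)
    refine ⟨A, ?_⟩
    ext x
    by_cases hx : Acc (topRel r) x
    · rcases x with _ | a
      · exact absurd hx hnone
      · have ha := (topRel_acc_some r a).1 hx
        rw [hmem2 A a ha]
        constructor
        · intro h
          rcases Finset.mem_union.1 h with h | h
          · obtain ⟨y, hy, hyx⟩ := Finset.mem_map.1 h
            have h3 : y.1 = a := hyx
            exact absurd (h3 ▸ ha) y.2
          · exact Finset.mem_eraseNone.1 (Finset.mem_filter.1 h).1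
        · intro h
          exact Finset.mem_union_right _ (Finset.mem_filter.2 ⟨Finset.mem_eraseNone.2 h, ha⟩)
    · rw [hmem1 A ⟨x, hx⟩, hA1, hP, Finset.mem_subtype]
  exact ⟨Equiv.ofBijective e ⟨hinj, hsurj⟩, hiff⟩

end ColexAux

/-- `2^r` is isomorphic to `2^(r+1)` if and only if `r` is not well founded. -/
theorem colex_iff {α : Type} [Countable α] (r : α → α → Prop) (hr : IsStrictTotalOrder α r) :
    (∃ e : Finset α ≃ Finset (Option α), ∀ A B, cl r A B ↔ cl (topRel r) (e A) (e B)) ↔
      ¬ WellFounded r :=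
  ⟨fun ⟨e, he⟩ => ColexAux.not_wf r hr e he, fun h => ColexAux.iso_of_not_wf r hr h⟩

end Pool.MPcae7fa
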