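import Mathlib

/-!
# Borel completeness and naming a constant: definitions

Countable first-order languages, the infinitary logic with countable conjunctions, the space of
structures with universe the natural numbers with the formula topology, Borel reducibility,
Borel completeness, and the theory obtained by naming a constant.
-/

namespace Pool.MPcae7fa

open FirstOrder FirstOrder.Language

/-- Infinitary formulas (countable conjunctions, finitely many free variables) over `L`,
with `n` free variables. -/
inductive InfFormula (L : FirstOrder.Language.{0, 0}) : ℕ → Type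
  | equal {n : ℕ} (t₁ t₂ : L.Term (Fin n)) : InfFormula L n
  | rel {n k : ℕ} (R : L.Relations k) (ts : Fin k → L.Term (Fin n)) : InfFormula L n
  | not {n : ℕ} (φ : InfFormula L n) : InfFormula L n
  | conj {n : ℕ} (φ : ℕ → InfFormula L n) : InfFormula L n
  | all {n : ℕ} (φ : InfFormula L (n + 1)) : InfFormula L n

/-- Satisfaction of an infinitary formula in a structure. -/
def InfFormula.Realize {L : FirstOrder.Language.{0, 0}} {M : Type} [L.Structure M] :
    {n : ℕ} → InfFormula L n → (Fin n → M) → Prop
  | _, .equal t₁ t₂, v => t₁.realize v = t₂.realize v
  | _, .rel R ts, v => Structure.RelMap R (fun i => (ts i).realize v)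
  | _, .not φ, v => ¬ φ.Realize v
  | _, .conj φ, v => ∀ i, (φ i).Realize v
  | _, .all φ, v => ∀ x : M, φ.Realize (Fin.snoc v x)

/-- A language with countably many function and relation symbols. -/
def IsCountable (L : FirstOrder.Language.{0, 0}) : Prop :=
  Countable (Σ n, L.Functions n) ∧ Countable (Σ n, L.Relations n)

/-- The formula topology on the set of `L`-structures with universe `ℕ`: the basic clopen sets
are the sets of structures `N` with `N ⊨ φ(v)`, for a first-order formula `φ` and a tuple `v` of
natural numbers. -/
@[instance_reducible] def formulaTopology (L : FirstOrder.Language.{0, 0}) : TopologicalSpace (L.Structure ℕ) :=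
  TopologicalSpace.generateFrom
    {s | ∃ (n : ℕ) (φ : L.Formula (Fin n)) (v : Fin n → ℕ),
      s = {N | @Formula.Realize L ℕ N (Fin n) φ v}}

/-- The Borel sets of a class `K` of structures with universe `ℕ` (with the subspace topology of
the formula topology). -/
@[instance_reducible] def borelOn {L : FirstOrder.Language.{0, 0}} (K : Set (L.Structure ℕ)) : MeasurableSpace K :=
  @borel K (TopologicalSpace.induced Subtype.val (formulaTopology L))

/-- Isomorphism of structures with universe `ℕ`. -/
def Iso {L : FirstOrder.Language.{0, 0}} (M N : L.Structure ℕ) : Prop :=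
  Nonempty (@FirstOrder.Language.Equiv L ℕ ℕ M N)

/-- Borel reducibility of the isomorphism relation of `K₁` to that of `K₂`. -/
def BorelReducible {L₁ L₂ : FirstOrder.Language.{0, 0}} (K₁ : Set (L₁.Structure ℕ))
    (K₂ : Set (L₂.Structure ℕ)) : Prop :=
  ∃ f : K₁ → K₂, @Measurable K₁ K₂ (borelOn K₁) (borelOn K₂) f ∧
    ∀ x y : K₁, Iso x.1 y.1 ↔ Iso (f x).1 (f y).1

/-- The models with universe `ℕ` of an infinitary sentence. -/
def ModInf {L : FirstOrder.Language.{0, 0}} (φ : InfFormula L 0) : Set (L.Structure ℕ) :=
  {N | @InfFormula.Realize L ℕ N 0 φ Fin.elim0}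

/-- The models with universe `ℕ` of a first-order theory. -/
def ModTh {L : FirstOrder.Language.{0, 0}} (T : L.Theory) : Set (L.Structure ℕ) :=
  {N | @Theory.Model L ℕ N T}

/-- Borel completeness (Friedman and Stanley): every infinitary sentence in a countable language
is Borel reducible to the given class. -/
def BorelComplete {L : FirstOrder.Language.{0, 0}} (K : Set (L.Structure ℕ)) : Prop :=
  ∀ L' : FirstOrder.Language.{0, 0}, IsCountable L' → ∀ φ : InfFormula L' 0, BorelReducible (ModInf φ) K

/-- Naming a constant: the complete theory of `(M, c)` in the language with one new constant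
symbol. -/
def namingConstant (L : FirstOrder.Language.{0, 0}) (M : Type) [L.Structure M] (c : M) :
    (L[[Unit]]).Theory :=
  letI : (constantsOn Unit).Structure M := constantsOn.structure (fun _ => c)
  (L[[Unit]]).completeTheory M

end Pool.MPcae7fa
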