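import Pool.Agent.Lib.MP_cae7fa_lc.Negative

/-!
# The isomorphism relations of the example

In the example, isomorphism of countable models of `T(c)` is a Borel relation, while isomorphism
of countable models of `T` is not.
-/

namespace Pool.MPcae7fa

open FirstOrder FirstOrder.Language MeasureTheory

/-- Isomorphism is a Borel relation on the class `K` of structures with universe `ℕ`: the set of
isomorphic pairs is a Borel subset of `K × K` (product of the subspace topologies of the formula
topology). -/
def IsoIsBorel {L : FirstOrder.Language.{0, 0}} (K : Set (L.Structure ℕ)) : Prop :=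
  @MeasurableSet (K × K)
    (@borel (K × K) (@instTopologicalSpaceProd K K
      (TopologicalSpace.induced Subtype.val (formulaTopology L))
      (TopologicalSpace.induced Subtype.val (formulaTopology L))))
    {p | Iso p.1.1 p.2.1}

theorem borel_prod_eq {L : FirstOrder.Language.{0, 0}} (hL : IsCountable L)
    (K : Set (L.Structure ℕ)) :
    @borel (K × K) (@instTopologicalSpaceProd K K
      (TopologicalSpace.induced Subtype.val (formulaTopology L))
      (TopologicalSpace.induced Subtype.val (formulaTopology L))) =
    @Prod.instMeasurableSpace K K (borelOn K) (borelOn K) := by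
  let τ : TopologicalSpace K := TopologicalSpace.induced Subtype.val (formulaTopology L)
  let μ : MeasurableSpace K := borelOn K
  have hb : BorelSpace K := ⟨rfl⟩
  have hc : ((fun s : Set (L.Structure ℕ) => (Subtype.val ⁻¹' s : Set K)) ''
      basicSets L).Countable := (countable_basicSets hL).image _
  have hs : SecondCountableTopology K := by
    refine ⟨⟨_, hc, ?_⟩⟩
    change TopologicalSpace.induced Subtype.val (formulaTopology L) = _
    rw [formulaTopology, induced_generateFrom_eq]
    rfl
  exact (Prod.borelSpace (α := K) (β := K)).measurable_eq.symm

/-- Isomorphism is Borel on the countable models of `T(c)`. -/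
theorem isoIsBorel_Tc : IsoIsBorel (ModTh Tc) := by
  unfold IsoIsBorel
  rw [borel_prod_eq isCountable_Lc]
  let := borelOn (ModTh Tc)
  exact measurableSet_iso (Ω := ModTh Tc × ModTh Tc) Prod.fst Prod.snd measurable_fst
    measurable_snd

/-- Isomorphism is not Borel on the countable models of `T`. -/
theorem not_isoIsBorel_Tprof : ¬ IsoIsBorel (ModTh Tprof) := by
  intro h
  unfold IsoIsBorel at h
  rw [borel_prod_eq isCountable_Lprof] at h
  refine not_borelComplete_of_borel (ModTh Tprof) (fun g g' hg hg' => ?_) borelComplete_Tprof
  let := borelOn (ModTh Tprof)
  exact (hg.prodMk hg') h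

end Pool.MPcae7fa
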