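import Pool.Agent.Lib.MP_cae7fa_lc.Universal

/-!
# Borel maps into spaces of structures, and Borel completeness of the theory
-/

namespace Pool.MPcae7fa

open FirstOrder FirstOrder.Language MeasureTheory

section General

variable {L : FirstOrder.Language.{0, 0}}

/-- The basic sets of the formula topology. -/
def basicSets (L : FirstOrder.Language.{0, 0}) : Set (Set (L.Structure ℕ)) :=
  {s | ∃ (n : ℕ) (φ : L.Formula (Fin n)) (v : Fin n → ℕ),
      s = {N | @Formula.Realize L ℕ N (Fin n) φ v}}

theorem countable_basicSets (hL : IsCountable L) : (basicSets L).Countable := by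
  obtain ⟨h1, h2⟩ := hL
  have : Countable L.Symbols := by unfold Language.Symbols; infer_instance
  have h3 : basicSets L = Set.range (fun p : (Σ n : ℕ, L.Formula (Fin n) × (Fin n → ℕ)) =>
      {N | @Formula.Realize L ℕ N (Fin p.1) p.2.1 p.2.2}) := by
    ext s
    constructor
    · rintro ⟨n, φ, v, rfl⟩
      exact ⟨⟨n, φ, v⟩, rfl⟩
    · rintro ⟨⟨n, φ, v⟩, rfl⟩
      exact ⟨n, φ, v, rfl⟩
  rw [h3]
  exact Set.countable_range _

theorem borelOn_eq (hL : IsCountable L) (K : Set (L.Structure ℕ)) :
    borelOn K = MeasurableSpace.generateFrom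
      ((fun s : Set (L.Structure ℕ) => (Subtype.val ⁻¹' s : Set K)) '' basicSets L) := by
  have hc : ((fun s : Set (L.Structure ℕ) => (Subtype.val ⁻¹' s : Set K)) ''
      basicSets L).Countable := (countable_basicSets hL).image _
  have ht : TopologicalSpace.induced (Subtype.val : K → L.Structure ℕ) (formulaTopology L) =
      TopologicalSpace.generateFrom
        ((fun s : Set (L.Structure ℕ) => (Subtype.val ⁻¹' s : Set K)) '' basicSets L) := by
    rw [formulaTopology, induced_generateFrom_eq]
    rfl
  unfold borelOn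
  rw [ht]
  let := TopologicalSpace.generateFrom
    ((fun s : Set (L.Structure ℕ) => (Subtype.val ⁻¹' s : Set K)) '' basicSets L)
  have : SecondCountableTopology K := ⟨⟨_, hc, rfl⟩⟩
  exact borel_eq_generateFrom_of_subbasis rfl

theorem measurableSet_term {Ω : Type} [MeasurableSpace Ω] (g : Ω → L.Structure ℕ)
    (hfun : ∀ {k : ℕ} (f : L.Functions k) (v : Fin k → ℕ) (y : ℕ),
      MeasurableSet {ω | @Structure.funMap L ℕ (g ω) k f v = y})
    {β : Type} (u : L.Term β) (v : β → ℕ) (y : ℕ) :
    MeasurableSet {ω | @Term.realize L ℕ (g ω) β v u = y} := by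
  induction u generalizing y with
  | var i =>
    by_cases h : v i = y
    · have : {ω | @Term.realize L ℕ (g ω) β v (Term.var i) = y} = Set.univ := by
        ext ω; simp only [Term.realize_var, Set.mem_ofPred_eq, h, Set.mem_univ]
      rw [this]; exact MeasurableSet.univ
    · have : {ω | @Term.realize L ℕ (g ω) β v (Term.var i) = y} = ∅ := by
        ext ω; simp only [Term.realize_var, Set.mem_ofPred_eq, h, Set.mem_empty_iff_false]
      rw [this]; exact MeasurableSet.empty
  | @func k f ts ih =>
    have : {ω | @Term.realize L ℕ (g ω) β v (Term.func f ts) = y} =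
        ⋃ w : Fin k → ℕ, ((⋂ i : Fin k, {ω | @Term.realize L ℕ (g ω) β v (ts i) = w i}) ∩
          {ω | @Structure.funMap L ℕ (g ω) k f w = y}) := by
      ext ω
      simp only [Set.mem_ofPred_eq, Set.mem_iUnion, Set.mem_inter_iff, Set.mem_iInter]
      constructor
      · intro h
        exact ⟨fun i => @Term.realize L ℕ (g ω) β v (ts i), fun i => rfl, h⟩
      · rintro ⟨w, hw, h⟩
        have e : (fun i => @Term.realize L ℕ (g ω) β v (ts i)) = w := funext hw
        change @Structure.funMap L ℕ (g ω) k f (fun i => @Term.realize L ℕ (g ω) β v (ts i)) = y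
        rw [e]
        exact h
    rw [this]
    exact MeasurableSet.iUnion fun w =>
      (MeasurableSet.iInter fun i => ih i (w i)).inter (hfun f w y)

theorem measurableSet_realize {Ω : Type} [MeasurableSpace Ω] (g : Ω → L.Structure ℕ)
    (hrel : ∀ {k : ℕ} (r : L.Relations k) (v : Fin k → ℕ),
      MeasurableSet {ω | @Structure.RelMap L ℕ (g ω) k r v})
    (hfun : ∀ {k : ℕ} (f : L.Functions k) (v : Fin k → ℕ) (y : ℕ),
      MeasurableSet {ω | @Structure.funMap L ℕ (g ω) k f v = y})
    {α : Type} {m : ℕ} (φ : L.BoundedFormula α m) (v : α → ℕ) (xs : Fin m → ℕ) :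
    MeasurableSet {ω | @BoundedFormula.Realize L ℕ (g ω) α m φ v xs} := by
  induction φ with
  | falsum => exact MeasurableSet.empty
  | equal t₁ t₂ =>
    have : {ω | @BoundedFormula.Realize L ℕ (g ω) α _ (BoundedFormula.equal t₁ t₂) v xs} =
        ⋃ y : ℕ, ({ω | @Term.realize L ℕ (g ω) _ (Sum.elim v xs) t₁ = y} ∩
          {ω | @Term.realize L ℕ (g ω) _ (Sum.elim v xs) t₂ = y}) := by
      ext ω
      simp only [Set.mem_ofPred_eq, Set.mem_iUnion, Set.mem_inter_iff]
      constructor
      · intro h
        exact ⟨_, rfl, h.symm⟩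
      · rintro ⟨y, h1, h2⟩
        exact h1.trans h2.symm
    rw [this]
    exact MeasurableSet.iUnion fun y => (measurableSet_term g hfun t₁ _ y).inter
      (measurableSet_term g hfun t₂ _ y)
  | @rel n k r ts =>
    have : {ω | @BoundedFormula.Realize L ℕ (g ω) α _ (BoundedFormula.rel r ts) v xs} =
        ⋃ w : Fin k → ℕ, ((⋂ i : Fin k,
          {ω | @Term.realize L ℕ (g ω) _ (Sum.elim v xs) (ts i) = w i}) ∩
          {ω | @Structure.RelMap L ℕ (g ω) k r w}) := by
      ext ω
      simp only [Set.mem_ofPred_eq, Set.mem_iUnion, Set.mem_inter_iff, Set.mem_iInter]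
      constructor
      · intro h
        exact ⟨fun i => @Term.realize L ℕ (g ω) _ (Sum.elim v xs) (ts i), fun i => rfl, h⟩
      · rintro ⟨w, hw, h⟩
        have e : (fun i => @Term.realize L ℕ (g ω) _ (Sum.elim v xs) (ts i)) = w := funext hw
        change @Structure.RelMap L ℕ (g ω) k r
          (fun i => @Term.realize L ℕ (g ω) _ (Sum.elim v xs) (ts i))
        rw [e]
        exact h
    rw [this]
    exact MeasurableSet.iUnion fun w =>
      (MeasurableSet.iInter fun i => measurableSet_term g hfun (ts i) _ (w i)).inter (hrel r w)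
  | imp φ ψ ih1 ih2 =>
    have : {ω | @BoundedFormula.Realize L ℕ (g ω) α _ (BoundedFormula.imp φ ψ) v xs} =
        {ω | @BoundedFormula.Realize L ℕ (g ω) α _ φ v xs}ᶜ ∪
          {ω | @BoundedFormula.Realize L ℕ (g ω) α _ ψ v xs} := by
      ext ω
      simp only [Set.mem_ofPred_eq, Set.mem_union, Set.mem_compl_iff]
      change (_ → _) ↔ _
      tauto
    rw [this]
    exact (ih1 xs).compl.union (ih2 xs)
  | all φ ih =>
    have : {ω | @BoundedFormula.Realize L ℕ (g ω) α _ (BoundedFormula.all φ) v xs} =
        ⋂ y : ℕ, {ω | @BoundedFormula.Realize L ℕ (g ω) α _ φ v (Fin.snoc xs y)} := by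
      ext ω
      simp only [Set.mem_ofPred_eq, Set.mem_iInter]
      rfl
    rw [this]
    exact MeasurableSet.iInter fun y => ih _

theorem measurable_into {Ω : Type} [MeasurableSpace Ω] (hL : IsCountable L)
    {K : Set (L.Structure ℕ)} (g : Ω → K)
    (hrel : ∀ {k : ℕ} (r : L.Relations k) (v : Fin k → ℕ),
      MeasurableSet {ω | @Structure.RelMap L ℕ (g ω).1 k r v})
    (hfun : ∀ {k : ℕ} (f : L.Functions k) (v : Fin k → ℕ) (y : ℕ),
      MeasurableSet {ω | @Structure.funMap L ℕ (g ω).1 k f v = y}) :
    @Measurable Ω K _ (borelOn K) g := by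
  rw [borelOn_eq hL K]
  refine @measurable_generateFrom Ω K _ _ g ?_
  rintro _ ⟨_, ⟨n, φ, v, rfl⟩, rfl⟩
  exact measurableSet_realize (fun ω => (g ω).1) hrel hfun φ v _

theorem measurableSet_formula {K : Set (L.Structure ℕ)} {n : ℕ} (φ : L.Formula (Fin n))
    (v : Fin n → ℕ) :
    @MeasurableSet K (borelOn K) {S | @Formula.Realize L ℕ S.1 (Fin n) φ v} := by
  apply MeasurableSpace.measurableSet_generateFrom
  exact ⟨_, TopologicalSpace.isOpen_generateFrom_of_mem ⟨n, φ, v, rfl⟩, rfl⟩

theorem measurableSet_rel {K : Set (L.Structure ℕ)} {k : ℕ} (r : L.Relations k) (v : Fin k → ℕ) :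
    @MeasurableSet K (borelOn K) {S | @Structure.RelMap L ℕ S.1 k r v} := by
  have := measurableSet_formula (K := K) (r.formula (fun i : Fin k => Term.var i)) v
  have e : {S : K | @Formula.Realize L ℕ S.1 (Fin k) (r.formula (fun i : Fin k => Term.var i)) v} =
      {S | @Structure.RelMap L ℕ S.1 k r v} := by
    ext S
    let := S.1
    exact Formula.realize_rel
  rw [e] at this
  exact this

theorem measurableSet_fun {K : Set (L.Structure ℕ)} {k : ℕ} (f : L.Functions k) (v : Fin k → ℕ)
    (y : ℕ) : @MeasurableSet K (borelOn K) {S | @Structure.funMap L ℕ S.1 k f v = y} := by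
  have := measurableSet_formula (K := K)
    (Term.equal (Term.func f (fun i : Fin k => Term.var i.castSucc)) (Term.var (Fin.last k)))
    (Fin.snoc v y)
  have e : {S : K | @Formula.Realize L ℕ S.1 (Fin (k + 1))
      (Term.equal (Term.func f (fun i : Fin k => Term.var i.castSucc)) (Term.var (Fin.last k)))
      (Fin.snoc v y)} = {S | @Structure.funMap L ℕ S.1 k f v = y} := by
    ext S
    let := S.1
    change Formula.Realize _ _ ↔ _
    rw [Formula.realize_equal]
    simp only [Term.realize_func, Term.realize_var, Fin.snoc_castSucc, Fin.snoc_last,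
      Set.mem_ofPred_eq]
  rw [e] at this
  exact this

end General

section Reduction

variable {L : FirstOrder.Language.{0, 0}} (encF : (Σ n, L.Functions n) → ℕ)
  (encR : (Σ n, L.Relations n) → ℕ)

theorem measurableSet_facts (hL : IsCountable L) (K : Set (L.Structure ℕ)) (q : Code) :
    @MeasurableSet K (borelOn K) {S | Facts encF encR S.1 q} := by
  let := borelOn K
  obtain ⟨h1, h2⟩ := hL
  have e : {S : K | Facts encF encR S.1 q} =
      (⋃ (f : Σ n, L.Functions n), ⋃ (v : Fin f.1 → ℕ), ⋃ (y : ℕ),
        {S : K | q = (2 * encF f + 1, List.ofFn v ++ [y]) ∧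
          @Structure.funMap L ℕ S.1 _ f.2 v = y}) ∪
      (⋃ (r : Σ n, L.Relations n), ⋃ (v : Fin r.1 → ℕ),
        {S : K | q = (2 * encR r + 2, List.ofFn v) ∧ @Structure.RelMap L ℕ S.1 _ r.2 v}) := by
    ext S
    simp only [Set.mem_ofPred_eq, Set.mem_union, Set.mem_iUnion]
    rfl
  rw [e]
  refine MeasurableSet.union ?_ ?_
  · refine MeasurableSet.iUnion fun f => MeasurableSet.iUnion fun v => MeasurableSet.iUnion fun y => ?_
    exact (MeasurableSet.const _).inter (measurableSet_fun f.2 v y)
  · refine MeasurableSet.iUnion fun r => MeasurableSet.iUnion fun v => ?_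
    exact (MeasurableSet.const _).inter (measurableSet_rel r.2 v)

theorem measurableSet_lab (hL : IsCountable L) (K : Set (L.Structure ℕ)) (a : Car) (n : ℕ)
    (w : F n) : @MeasurableSet K (borelOn K) {S | lab (Facts encF encR S.1) a n = w} := by
  let := borelOn K
  by_cases h : n < a.2.1
  · have : {S : K | lab (Facts encF encR S.1) a n = w} = {S : K | a.2.2 ⟨n, h⟩ = w} := by
      ext S
      simp only [lab, h, dif_pos]
    rw [this]
    exact MeasurableSet.const _
  · have : {S : K | lab (Facts encF encR S.1) a n = w} =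
        (({S : K | a.1.1 = 0} ∪ {S | Facts encF encR S.1 a.1}) ∩ {S : K | germ a.1 n = w}) ∪
        (({S : K | a.1.1 = 0} ∪ {S | Facts encF encR S.1 a.1})ᶜ ∩
          {S : K | germ (0, []) n = w}) := by
      ext S
      have hm : S ∈ ({S : K | a.1.1 = 0} ∪ {S | Facts encF encR S.1 a.1} : Set K) ↔
          Hat (Facts encF encR S.1) a.1 := Iff.rfl
      rw [Set.mem_union, Set.mem_inter_iff, Set.mem_inter_iff, Set.mem_compl_iff, hm]
      simp only [lab, h, dif_neg, not_false_iff, eff, Set.mem_ofPred_eq]
      by_cases hh : Hat (Facts encF encR S.1) a.1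
      · simp only [hh, if_true, true_and, not_true, false_and, or_false]
      · simp only [hh, if_false, true_and, not_false_iff, false_and, false_or]
    rw [this]
    have hm := (MeasurableSet.const (α := K) (a.1.1 = 0)).union
      (measurableSet_facts encF encR hL K a.1)
    exact (hm.inter (MeasurableSet.const _)).union (hm.compl.inter (MeasurableSet.const _))

/-- The theory is Borel complete. -/
theorem borelComplete_Tprof : BorelComplete (ModTh Tprof) := by
  intro L hL φ
  obtain ⟨h1, h2⟩ := id hL
  obtain ⟨encF, hF⟩ := exists_injective_nat (Σ n, L.Functions n)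
  obtain ⟨encR, hR⟩ := exists_injective_nat (Σ n, L.Relations n)
  let := borelOn (ModInf φ)
  refine ⟨fun S => ⟨str (labn (Facts encF encR S.1)), model_labn _⟩, ?_, fun S S' => ?_⟩
  · refine measurable_into isCountable_Lprof _ (fun {k} r v => ?_) (fun {k} f v y => ?_)
    · cases r with
      | R n f f' =>
        have : {S : ModInf φ | @Structure.RelMap Lprof ℕ (str (labn (Facts encF encR S.1))) 2
            (Sym.R n f f') v} =
            ⋃ (w : F n), ⋃ (w' : F n), ({S : ModInf φ | SameOrbit (f, f') (w, w')} ∩
              ({S | lab (Facts encF encR S.1) (car.symm (v 0)) n = w} ∩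
              {S | lab (Facts encF encR S.1) (car.symm (v 1)) n = w'})) := by
          ext S
          simp only [Set.mem_ofPred_eq, Set.mem_iUnion, Set.mem_inter_iff]
          change SameOrbit (f, f') (lab (Facts encF encR S.1) (car.symm (v 0)) n,
            lab (Facts encF encR S.1) (car.symm (v 1)) n) ↔ _
          constructor
          · intro h
            exact ⟨_, _, h, rfl, rfl⟩
          · rintro ⟨w, w', h, rfl, rfl⟩
            exact h
        change MeasurableSet {S : ModInf φ | @Structure.RelMap Lprof ℕ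
          (str (labn (Facts encF encR S.1))) 2 (Sym.R n f f') v}
        rw [this]
        exact MeasurableSet.iUnion fun w => MeasurableSet.iUnion fun w' =>
          (MeasurableSet.const _).inter ((measurableSet_lab encF encR hL _ _ _ _).inter
            (measurableSet_lab encF encR hL _ _ _ _))
    · exact Empty.elim f
  · exact iso_iff_iso_labn encF encR hF hR S.1 S'.1

end Reduction

end Pool.MPcae7fa
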