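import Pool.Agent.Lib.MP_cae7fa_lc.Meas

/-!
# Naming the constant: the isomorphism relation becomes Borel
-/

namespace Pool.MPcae7fa

open FirstOrder FirstOrder.Language MeasureTheory

/-- The language with the new constant. -/
abbrev Lc : FirstOrder.Language.{0, 0} := Lprof[[Unit]]

/-- The binary symbols in the expanded language. -/
def symc (n : ℕ) (f f' : F n) : Lc.Relations 2 := Sum.inl (Sym.R n f f' : Lprof.Relations 2)

/-- The value of the constant. -/
def cval {M : Type} (S : Lc.Structure M) : M :=
  @Structure.funMap Lc M S 0 (Sum.inr () : Lc.Functions 0) Fin.elim0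

/-- The relation `R n f f'` in a structure for the expanded language. -/
def relc {M : Type} (S : Lc.Structure M) (n : ℕ) (f f' : F n) (x y : M) : Prop :=
  @Structure.RelMap Lc M S 2 (symc n f f') ![x, y]

/-- The term for the constant. -/
def ctm (k : ℕ) : Lc.Term (Empty ⊕ Fin k) := Term.func (Sum.inr () : Lc.Functions 0) Fin.elim0

/-- The axiom: the relations are determined by the codes over the constant. -/
noncomputable def ax (n : ℕ) (f f' : F n) : Lc.Sentence :=
  BoundedFormula.all (BoundedFormula.all
    (BoundedFormula.iff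
      (BoundedFormula.rel (symc n f f') ![Term.var (Sum.inr 0), Term.var (Sum.inr 1)])
      (BoundedFormula.iSup (fun p : {p : F n × F n // SameOrbit (f, f') p} =>
        BoundedFormula.rel (symc n (base n) p.1.1) ![ctm 2, Term.var (Sum.inr 0)] ⊓
          BoundedFormula.rel (symc n (base n) p.1.2) ![ctm 2, Term.var (Sum.inr 1)]))))

theorem realize_ax {M : Type} (S : Lc.Structure M) (n : ℕ) (f f' : F n) :
    @Sentence.Realize Lc M S (ax n f f') ↔
      ∀ x y : M, relc S n f f' x y ↔ ∃ p : {p : F n × F n // SameOrbit (f, f') p},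
        relc S n (base n) p.1.1 (cval S) x ∧ relc S n (base n) p.1.2 (cval S) y := by
  have hv : ∀ (v : Empty → M) (x y : M) (a : Lc.Term (Empty ⊕ Fin 2)) (b : Lc.Term (Empty ⊕ Fin 2)),
      (fun i : Fin 2 => @Term.realize Lc M S _ (Sum.elim v (Fin.snoc (Fin.snoc default x) y))
        ((![a, b] : Fin 2 → _) i)) =
      ![@Term.realize Lc M S _ (Sum.elim v (Fin.snoc (Fin.snoc default x) y)) a,
        @Term.realize Lc M S _ (Sum.elim v (Fin.snoc (Fin.snoc default x) y)) b] := by
    intro v x y a b
    funext i
    fin_cases i <;> rfl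
  have hc : ∀ (v : Empty ⊕ Fin 2 → M), @Term.realize Lc M S _ v (ctm 2) = cval S := by
    intro v
    change @Structure.funMap Lc M S 0 _ _ = @Structure.funMap Lc M S 0 _ _
    congr 1
    exact Subsingleton.elim _ _
  unfold ax Sentence.Realize Formula.Realize
  change (∀ x : M, ∀ y : M, _) ↔ _
  refine forall_congr' fun x => forall_congr' fun y => ?_
  rw [BoundedFormula.realize_iff, BoundedFormula.realize_iSup]
  simp only [BoundedFormula.realize_inf]
  change ((@Structure.RelMap Lc M S 2 (symc n f f') (fun i : Fin 2 => _)) ↔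
    ∃ p : {p : F n × F n // SameOrbit (f, f') p},
      (@Structure.RelMap Lc M S 2 (symc n (base n) p.1.1) (fun i : Fin 2 => _)) ∧
      (@Structure.RelMap Lc M S 2 (symc n (base n) p.1.2) (fun i : Fin 2 => _))) ↔ _
  simp only [hv, hc]
  rfl

/-- The expanded nice structure. -/
@[instance_reducible]
noncomputable def strc : Lc.Structure (Option Car) :=
  @Language.withConstantsStructure Lprof (Option Car) (str labN) Unit
    (constantsOn.structure (fun _ => none))

/-- The theory after naming the constant. -/
noncomputable def Tc : Lc.Theory := @namingConstant Lprof (Option Car) (str labN) none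

theorem relc_strc (n : ℕ) (f f' : F n) (x y : Option Car) :
    relc strc n f f' x y ↔ SameOrbit (f, f') (labN x n, labN y n) := Iff.rfl

theorem cval_strc : cval strc = none := rfl

theorem sameOrbit_base {n : ℕ} {f f' : F n} : SameOrbit (base n, f) (base n, f') ↔ f = f' := by
  constructor
  · rintro ⟨g, h1, h2⟩
    simp only at h1 h2
    have : g = 1 := act_base_inj (h1.trans (act_one _).symm)
    rw [this, act_one] at h2
    exact h2
  · rintro rfl
    exact SameOrbit.refl _

theorem strc_ax (n : ℕ) (f f' : F n) : @Sentence.Realize Lc (Option Car) strc (ax n f f') := by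
  rw [realize_ax]
  intro x y
  simp only [relc_strc, cval_strc]
  change _ ↔ ∃ p : {p : F n × F n // SameOrbit (f, f') p},
    SameOrbit (base n, p.1.1) (base n, labN x n) ∧ SameOrbit (base n, p.1.2) (base n, labN y n)
  simp only [sameOrbit_base]
  constructor
  · intro h
    exact ⟨⟨_, h⟩, rfl, rfl⟩
  · rintro ⟨⟨⟨p, q⟩, h⟩, h1, h2⟩
    simp only at h1 h2
    rw [← h1, ← h2]
    exact h

theorem ax_of_mem {S : Lc.Structure ℕ} (hS : S ∈ ModTh Tc) (n : ℕ) (f f' : F n) (x y : ℕ) :
    relc S n f f' x y ↔ ∃ p : {p : F n × F n // SameOrbit (f, f') p},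
        relc S n (base n) p.1.1 (cval S) x ∧ relc S n (base n) p.1.2 (cval S) y := by
  have h : @Sentence.Realize Lc ℕ S (ax n f f') :=
    @Theory.Model.realize_of_mem Lc ℕ S Tc hS (ax n f f') (strc_ax n f f')
  exact (realize_ax S n f f').1 h x y

/-- The code of an element. -/
def kap (S : Lc.Structure ℕ) (x : ℕ) (i : Option (Σ n, F n)) : Prop :=
  match i with
  | none => x = cval S
  | some p => relc S p.1 (base p.1) p.2 (cval S) x

theorem iso_iff_kap {S S' : Lc.Structure ℕ} (hS : S ∈ ModTh Tc) (hS' : S' ∈ ModTh Tc) :
    Iso S S' ↔ ∃ e : ℕ ≃ ℕ, ∀ x, kap S' (e x) = kap S x := by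
  constructor
  · rintro ⟨⟨e, hf, hr⟩⟩
    have hc : e (cval S) = cval S' := by
      have := hf (Sum.inr () : Lc.Functions 0) Fin.elim0
      change e (@Structure.funMap Lc ℕ S 0 (Sum.inr () : Lc.Functions 0) Fin.elim0) = _
      refine this.trans ?_
      change @Structure.funMap Lc ℕ S' 0 _ _ = @Structure.funMap Lc ℕ S' 0 _ _
      congr 1
      exact Subsingleton.elim _ _
    refine ⟨e, fun x => ?_⟩
    funext i
    rcases i with _ | ⟨n, f⟩
    · change (e x = cval S') = (x = cval S)
      rw [← hc, e.injective.eq_iff]
    · change relc S' n (base n) f (cval S') (e x) = relc S n (base n) f (cval S) x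
      rw [← hc]
      have := hr (symc n (base n) f) ![cval S, x]
      apply propext
      refine Iff.trans ?_ this
      unfold relc
      have e2 : (![e (cval S), e x] : Fin 2 → ℕ) = e ∘ ![cval S, x] := by
        funext i
        fin_cases i <;> rfl
      rw [e2]
      rfl
  · rintro ⟨e, he⟩
    have hc : e (cval S) = cval S' := by
      have := congrFun (he (cval S)) none
      change (e (cval S) = cval S') = (cval S = cval S) at this
      rw [this]
    have hk : ∀ (n : ℕ) (f : F n) (x : ℕ), relc S' n (base n) f (cval S') (e x) ↔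
        relc S n (base n) f (cval S) x := fun n f x =>
      iff_of_eq (congrFun (he x) (some ⟨n, f⟩))
    refine ⟨@FirstOrder.Language.Equiv.mk Lc ℕ ℕ S S' e (fun {k} f v => ?_) (fun {k} r v => ?_)⟩
    · rcases f with f | f
      · exact Empty.elim f
      · cases k with
        | zero =>
          have h1 : (@Structure.funMap Lc ℕ S 0 (Sum.inr f : Lc.Functions 0) v) = cval S := by
            change _ = @Structure.funMap Lc ℕ S 0 _ _
            congr 1
            exact Subsingleton.elim _ _
          have h2 : (@Structure.funMap Lc ℕ S' 0 (Sum.inr f : Lc.Functions 0) (e ∘ v)) =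
              cval S' := by
            change _ = @Structure.funMap Lc ℕ S' 0 _ _
            congr 1
            exact Subsingleton.elim _ _
          change e (@Structure.funMap Lc ℕ S 0 (Sum.inr f : Lc.Functions 0) v) =
            @Structure.funMap Lc ℕ S' 0 (Sum.inr f : Lc.Functions 0) (e ∘ v)
          rw [h1, h2, hc]
        | succ k => exact PEmpty.elim f
    · rcases r with r | r
      · change Sym k at r
        cases r with
        | R n f f' =>
          have h1 := ax_of_mem hS n f f' (v 0) (v 1)
          have h2 := ax_of_mem hS' n f f' (e (v 0)) (e (v 1))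
          simp only [hk] at h2
          have h3 : relc S' n f f' (e (v 0)) (e (v 1)) ↔ relc S n f f' (v 0) (v 1) :=
            h2.trans h1.symm
          have e1 : (e ∘ v) = ![e (v 0), e (v 1)] := by
            funext i
            fin_cases i <;> rfl
          have e2 : v = ![v 0, v 1] := by
            funext i
            fin_cases i <;> rfl
          change @Structure.RelMap Lc ℕ S' 2 (symc n f f') (e ∘ v) ↔
            @Structure.RelMap Lc ℕ S 2 (symc n f f') v
          rw [e1, e2]
          exact h3
      · exact Empty.elim r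

/-- Existence of a bijection preserving a code, by counting. -/
theorem exists_equiv_iff_count {K : Type} (f f' : ℕ → K) :
    (∃ e : ℕ ≃ ℕ, ∀ x, f' (e x) = f x) ↔
      ∀ x : ℕ, ∀ m : ℕ,
        ((∃ s : Finset ℕ, s.card = m ∧ ∀ y ∈ s, f y = f x) ↔
          (∃ s : Finset ℕ, s.card = m ∧ ∀ y ∈ s, f' y = f x)) ∧
        ((∃ s : Finset ℕ, s.card = m ∧ ∀ y ∈ s, f y = f' x) ↔
          (∃ s : Finset ℕ, s.card = m ∧ ∀ y ∈ s, f' y = f' x)) := by
  constructor
  · rintro ⟨e, he⟩
    have key : ∀ (k : K) (m : ℕ), (∃ s : Finset ℕ, s.card = m ∧ ∀ y ∈ s, f y = k) ↔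
        (∃ s : Finset ℕ, s.card = m ∧ ∀ y ∈ s, f' y = k) := by
      intro k m
      constructor
      · rintro ⟨s, hs, h⟩
        refine ⟨s.map e.toEmbedding, by rw [Finset.card_map, hs], fun y hy => ?_⟩
        obtain ⟨z, hz, rfl⟩ := Finset.mem_map.1 hy
        exact (he z).trans (h z hz)
      · rintro ⟨s, hs, h⟩
        refine ⟨s.map e.symm.toEmbedding, by rw [Finset.card_map, hs], fun y hy => ?_⟩
        obtain ⟨z, hz, rfl⟩ := Finset.mem_map.1 hy
        have := he (e.symm z)
        rw [Equiv.apply_symm_apply] at this
        exact this.symm.trans (h z hz)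
    exact fun x m => ⟨key _ _, key _ _⟩
  · intro H
    have enc : ∀ (g : ℕ → K) (k : K) (m : ℕ), (∃ s : Finset ℕ, s.card = m ∧ ∀ y ∈ s, g y = k) ↔
        (m : ℕ∞) ≤ (g ⁻¹' {k}).encard := by
      intro g k m
      constructor
      · rintro ⟨s, rfl, h⟩
        rw [← Set.encard_coe_eq_coe_finsetCard]
        exact Set.encard_le_encard (fun y hy => h y hy)
      · intro h
        obtain ⟨t, ht, hm⟩ := Set.exists_subset_encard_eq h
        have hfin : t.Finite := Set.finite_of_encard_eq_coe hm
        refine ⟨hfin.toFinset, ?_, fun y hy => ht (hfin.mem_toFinset.1 hy)⟩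
        rw [hfin.encard_eq_coe_toFinset_card] at hm
        exact_mod_cast hm
    have key : ∀ k : K, (f ⁻¹' {k}).encard = (f' ⁻¹' {k}).encard := by
      intro k
      by_cases h1 : k ∈ Set.range f
      · obtain ⟨x, rfl⟩ := h1
        apply ENat.eq_of_forall_natCast_le_iff
        intro m
        rw [← enc, ← enc]
        exact (H x m).1
      · by_cases h2 : k ∈ Set.range f'
        · obtain ⟨x, rfl⟩ := h2
          apply ENat.eq_of_forall_natCast_le_iff
          intro m
          rw [← enc, ← enc]
          exact (H x m).2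
        · have e1 : f ⁻¹' {k} = ∅ := by
            ext x
            simp only [Set.mem_preimage, Set.mem_singleton_iff, Set.mem_empty_iff_false, iff_false]
            exact fun h => h1 ⟨x, h⟩
          have e2 : f' ⁻¹' {k} = ∅ := by
            ext x
            simp only [Set.mem_preimage, Set.mem_singleton_iff, Set.mem_empty_iff_false, iff_false]
            exact fun h => h2 ⟨x, h⟩
          rw [e1, e2]
    have key2 : ∀ k : K, Nonempty ({x // f x = k} ≃ {x // f' x = k}) := by
      intro k
      by_cases hfin : (f ⁻¹' {k}).Finite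
      · have hfin' : (f' ⁻¹' {k}).Finite :=
          (Set.finite_iff_finite_of_encard_eq_encard (key k)).1 hfin
        have hk := key k
        rw [hfin.encard_eq_coe_toFinset_card, hfin'.encard_eq_coe_toFinset_card] at hk
        have hk2 : hfin.toFinset.card = hfin'.toFinset.card := by exact_mod_cast hk
        have e1 := Finset.equivOfCardEq hk2
        refine ⟨?_⟩
        refine (Equiv.subtypeEquivRight (fun x => ?_)).trans
          (e1.trans (Equiv.subtypeEquivRight (fun x => ?_)))
        · exact (hfin.mem_toFinset).symm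
        · exact hfin'.mem_toFinset
      · have hinf : (f ⁻¹' {k}).Infinite := hfin
        have hinf' : (f' ⁻¹' {k}).Infinite := fun h =>
          hfin ((Set.finite_iff_finite_of_encard_eq_encard (key k)).2 h)
        have i1 : Infinite {x // f x = k} := hinf.to_subtype
        have i2 : Infinite {x // f' x = k} := hinf'.to_subtype
        exact nonempty_equiv_of_countable
    have k : ∀ x : K, {a // f a = x} ≃ {b // f' b = x} := fun x => (key2 x).some
    refine ⟨(Equiv.sigmaFiberEquiv f).symm.trans
      ((Equiv.sigmaCongrRight k).trans (Equiv.sigmaFiberEquiv f')), fun a => ?_⟩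
    exact (k (f a) ⟨a, rfl⟩).2

end Pool.MPcae7fa
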