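import Mathlib

/-!
MP_cae7fa_lc, module Orders: a Borel family of linear orders on `ℕ` whose well-founded members do
not form a Borel set.
-/

set_option autoImplicit false

namespace Pool.MPcae7fa

namespace OrdersAux

open MeasureTheory Set Filter Topology

/-- `x|n`. -/
def res (x : ℕ → ℕ) (n : ℕ) : List ℕ := (List.range n).map x

@[simp] lemma length_res (x : ℕ → ℕ) (n : ℕ) : (res x n).length = n := by simp [res]

lemma res_zero (x : ℕ → ℕ) : res x 0 = [] := rfl

lemma res_succ (x : ℕ → ℕ) (n : ℕ) : res x (n + 1) = res x n ++ [x n] := by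
  simp [res, List.range_succ]

lemma res_take (x : ℕ → ℕ) {k n : ℕ} (h : k ≤ n) : (res x n).take k = res x k := by
  rw [res, res, ← List.map_take, List.take_range, Nat.min_eq_left h]

lemma res_eq_iff {x y : ℕ → ℕ} {n : ℕ} : res x n = res y n ↔ ∀ i < n, x i = y i := by
  rw [res, res, List.map_inj_left]
  simp

/-- coding of pairs of finite sequences. -/
def code (s t : List ℕ) : ℕ := Encodable.encode (s, t)

lemma code_inj {s t s' t' : List ℕ} (h : code s t = code s' t') : s = s' ∧ t = t' := by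
  have := Encodable.encode_injective h
  simpa using this

/-- the analytic set. -/
def D : Set (ℕ → ℕ) := {x | ∃ y : ℕ → ℕ, ∀ n, x (code (res x n) (res y n)) = 0}

/-- the tree. -/
def T (x : ℕ → ℕ) : Set (List ℕ) := {t | ∀ k ≤ t.length, x (code (res x k) (t.take k)) = 0}

theorem D_not_measurable : ¬ MeasurableSet D := by
  classical
  intro hD
  have hE : AnalyticSet (Dᶜ : Set (ℕ → ℕ)) := hD.compl.analyticSet
  rw [AnalyticSet] at hE
  rcases hE with hE | ⟨f, hf, hfr⟩
  · have h1 : (fun _ => 1 : ℕ → ℕ) ∈ Dᶜ := by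
      rintro ⟨y, hy⟩
      exact absurd (hy 0) (by norm_num)
    rw [hE] at h1
    exact h1
  · let z : ℕ → ℕ := fun m => if ∃ s t, m = code s t ∧ s.length = t.length ∧
      ∃ y', s = res (f y') s.length ∧ t = res y' t.length then 0 else 1
    by_cases hz : z ∈ D
    · obtain ⟨y, hy⟩ := hz
      have key : ∀ n, ∃ y', res z n = res (f y') n ∧ res y n = res y' n := by
        intro n
        have h1 := hy n
        have h2 : ∃ s t, code (res z n) (res y n) = code s t ∧ s.length = t.length ∧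
            ∃ y', s = res (f y') s.length ∧ t = res y' t.length := by
          by_contra hcon
          simp only [z] at h1
          rw [if_neg hcon] at h1
          exact absurd h1 (by norm_num)
        obtain ⟨s, t, h3, -, y', h4, h5⟩ := h2
        obtain ⟨h6, h7⟩ := code_inj h3
        subst h6 h7
        rw [length_res] at h4 h5
        exact ⟨y', h4, h5⟩
      choose w hw1 hw2 using key
      have hlim1 : Tendsto w atTop (𝓝 y) := by
        rw [tendsto_pi_nhds]
        intro i
        refine tendsto_const_nhds.congr' ?_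
        filter_upwards [eventually_gt_atTop i] with n hn
        exact res_eq_iff.1 (hw2 n) i hn
      have hlim2 : Tendsto (fun n => f (w n)) atTop (𝓝 z) := by
        rw [tendsto_pi_nhds]
        intro i
        refine tendsto_const_nhds.congr' ?_
        filter_upwards [eventually_gt_atTop i] with n hn
        exact res_eq_iff.1 (hw1 n) i hn
      have h8 : f y = z := tendsto_nhds_unique ((hf.tendsto y).comp hlim1) hlim2
      have h9 : z ∈ (Dᶜ : Set (ℕ → ℕ)) := by rw [← hfr]; exact ⟨y, h8⟩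
      exact h9 ⟨y, hy⟩
    · have h1 : z ∈ range f := by rw [hfr]; exact hz
      obtain ⟨y, hy⟩ := h1
      apply hz
      refine ⟨y, fun n => ?_⟩
      have h2 : ∃ s t, code (res z n) (res y n) = code s t ∧ s.length = t.length ∧
          ∃ y', s = res (f y') s.length ∧ t = res y' t.length :=
        ⟨res z n, res y n, rfl, by simp, y, by rw [hy, length_res], by rw [length_res]⟩
      change (if _ then _ else _) = 0
      rw [if_pos h2]

/-- Kleene–Brouwer order. -/
def kb : List ℕ → List ℕ → Prop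
  | [], _ => False
  | _ :: _, [] => True
  | a :: s, b :: t => a < b ∨ (a = b ∧ kb s t)

lemma kb_irrefl (s : List ℕ) : ¬ kb s s := by
  induction s with
  | nil => simp [kb]
  | cons a s ih => simp [kb, ih]

lemma kb_trans : ∀ {s t u : List ℕ}, kb s t → kb t u → kb s u
  | [], _, _, h, _ => by simp [kb] at h
  | _ :: _, [], _, _, h => by simp [kb] at h
  | _ :: _, _ :: _, [], _, _ => by simp [kb]
  | a :: s, b :: t, c :: u, h1, h2 => by
    simp only [kb] at h1 h2 ⊢
    rcases h1 with h1 | ⟨rfl, h1⟩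
    · rcases h2 with h2 | ⟨rfl, h2⟩
      · exact Or.inl (h1.trans h2)
      · exact Or.inl h1
    · rcases h2 with h2 | ⟨rfl, h2⟩
      · exact Or.inl h2
      · exact Or.inr ⟨rfl, kb_trans h1 h2⟩

lemma kb_tri : ∀ s t : List ℕ, kb s t ∨ s = t ∨ kb t s
  | [], [] => by simp
  | [], _ :: _ => by simp [kb]
  | _ :: _, [] => by simp [kb]
  | a :: s, b :: t => by
    rcases lt_trichotomy a b with h | rfl | h
    · exact Or.inl (Or.inl h)
    · rcases kb_tri s t with h | rfl | h
      · exact Or.inl (Or.inr ⟨rfl, h⟩)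
      · exact Or.inr (Or.inl rfl)
      · exact Or.inr (Or.inr (Or.inr ⟨rfl, h⟩))
    · exact Or.inr (Or.inr (Or.inl h))

lemma kb_append_left (u : List ℕ) {s t : List ℕ} (h : kb s t) : kb (u ++ s) (u ++ t) := by
  induction u with
  | nil => exact h
  | cons a u ih => exact Or.inr ⟨rfl, ih⟩

lemma kb_ext (u : List ℕ) {s : List ℕ} (h : s ≠ []) : kb (u ++ s) u := by
  have : kb s [] := by cases s with
    | nil => exact absurd rfl h
    | cons a s => trivial
  have h2 := kb_append_left u this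
  rwa [List.append_nil] at h2

lemma T_prefix {x : ℕ → ℕ} {s t : List ℕ} (h : s <+: t) (ht : t ∈ T x) : s ∈ T x := by
  intro k hk
  obtain ⟨u, rfl⟩ := h
  have := ht k (by rw [List.length_append]; omega)
  rwa [List.take_append_of_le_length hk] at this

/-- bad nodes. -/
def Bad (x : ℕ → ℕ) (t : List ℕ) : Prop :=
  ∃ Z : Set (List ℕ), Z.Nonempty ∧ (∀ z ∈ Z, z ∈ T x ∧ t <+: z) ∧ ∀ z ∈ Z, ∃ w ∈ Z, kb w z

lemma Bad.next {x : ℕ → ℕ} {t : List ℕ} (h : Bad x t) : ∃ i, Bad x (t ++ [i]) := by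
  classical
  obtain ⟨Z, ⟨z0, hz0⟩, hZ, hmin⟩ := h
  -- some element different from `t`
  have hex : ∃ i, ∃ z ∈ Z, t ++ [i] <+: z := by
    obtain ⟨w, hw, hkb⟩ : ∃ w ∈ Z, w ≠ t := by
      by_cases h0 : z0 = t
      · obtain ⟨w, hw, hkb⟩ := hmin z0 hz0
        refine ⟨w, hw, ?_⟩
        rintro rfl
        rw [h0] at hkb
        exact kb_irrefl _ hkb
      · exact ⟨z0, hz0, h0⟩
    obtain ⟨u, hu⟩ := (hZ w hw).2
    cases u with
    | nil => exact absurd (by simpa using hu.symm) hkb
    | cons i u => exact ⟨i, w, hw, ⟨u, by simp [← hu]⟩⟩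
  have hmin2 := Nat.find_spec hex
  set i := Nat.find hex with hi
  obtain ⟨z, hz, hzp⟩ := hmin2
  refine ⟨i, {z ∈ Z | t ++ [i] <+: z}, ⟨z, hz, hzp⟩, fun z hz => ⟨(hZ z hz.1).1, hz.2⟩, ?_⟩
  rintro m ⟨hm, hmp⟩
  by_contra hcon
  push Not at hcon
  obtain ⟨w, hw, hkb⟩ := hmin m hm
  have hwn : ¬ t ++ [i] <+: w := fun h => hcon w ⟨hw, h⟩ hkb
  obtain ⟨u, hu⟩ := (hZ w hw).2
  obtain ⟨v, hv⟩ := hmp
  have hkb' : kb m w := by
    cases u with
    | nil =>
      rw [List.append_nil] at hu
      rw [← hu, ← hv, List.append_assoc]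
      exact kb_ext t (by simp)
    | cons j u =>
      have hj : ¬ j < i := by
        intro hj
        exact Nat.find_min hex hj ⟨w, hw, ⟨u, by simp [← hu]⟩⟩
      have hji : j ≠ i := by
        rintro rfl
        exact hwn ⟨u, by simp [← hu]⟩
      rw [← hu, ← hv, List.append_assoc]
      exact kb_append_left t (Or.inl (by omega))
  exact kb_irrefl _ (kb_trans hkb hkb')

lemma Bad.mem {x : ℕ → ℕ} {t : List ℕ} (h : Bad x t) : t ∈ T x := by
  obtain ⟨Z, ⟨z0, hz0⟩, hZ, -⟩ := h
  exact T_prefix (hZ z0 hz0).2 (hZ z0 hz0).1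

lemma mem_D_of_bad {x : ℕ → ℕ} (h : Bad x []) : x ∈ D := by
  choose nx hnx using fun t : {t // Bad x t} => t.2.next
  let F : ℕ → {t // Bad x t} := fun n => Nat.rec ⟨[], h⟩ (fun _ t => ⟨t.1 ++ [nx t], hnx t⟩) n
  have hF : ∀ n, (F (n + 1)).1 = (F n).1 ++ [nx (F n)] := fun n => rfl
  refine ⟨fun n => nx (F n), fun n => ?_⟩
  have h1 : ∀ n, (F n).1 = res (fun n => nx (F n)) n := by
    intro n
    induction n with
    | zero => rfl
    | succ n ih => rw [hF, res_succ, ← ih]
  have h2 := (F n).2.mem n (by rw [h1, length_res])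
  rw [h1, res_take _ le_rfl] at h2
  exact h2

/-- the order on finite sequences. -/
def L (x : ℕ → ℕ) (s t : List ℕ) : Prop :=
  (s ∈ T x ∧ t ∈ T x ∧ kb s t) ∨ (s ∈ T x ∧ t ∉ T x) ∨
    (s ∉ T x ∧ t ∉ T x ∧ Encodable.encode s < Encodable.encode t)

lemma L_irrefl (x : ℕ → ℕ) (s : List ℕ) : ¬ L x s s := by
  rintro (⟨-, -, h⟩ | ⟨h1, h2⟩ | ⟨-, -, h⟩)
  · exact kb_irrefl _ h
  · exact h2 h1
  · exact lt_irrefl _ h

lemma L_trans (x : ℕ → ℕ) {s t u : List ℕ} (h1 : L x s t) (h2 : L x t u) : L x s u := by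
  rcases h1 with ⟨a1, a2, a3⟩ | ⟨a1, a2⟩ | ⟨a1, a2, a3⟩ <;>
    rcases h2 with ⟨b1, b2, b3⟩ | ⟨b1, b2⟩ | ⟨b1, b2, b3⟩
  · exact Or.inl ⟨a1, b2, kb_trans a3 b3⟩
  · exact Or.inr (Or.inl ⟨a1, b2⟩)
  · exact absurd a2 b1
  · exact absurd b1 a2
  · exact absurd b1 a2
  · exact Or.inr (Or.inl ⟨a1, b2⟩)
  · exact absurd b1 a2
  · exact absurd b1 a2
  · exact Or.inr (Or.inr ⟨a1, b2, a3.trans b3⟩)

lemma L_tri (x : ℕ → ℕ) (s t : List ℕ) : L x s t ∨ s = t ∨ L x t s := by
  by_cases hs : s ∈ T x <;> by_cases ht : t ∈ T x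
  · rcases kb_tri s t with h | h | h
    · exact Or.inl (Or.inl ⟨hs, ht, h⟩)
    · exact Or.inr (Or.inl h)
    · exact Or.inr (Or.inr (Or.inl ⟨ht, hs, h⟩))
  · exact Or.inl (Or.inr (Or.inl ⟨hs, ht⟩))
  · exact Or.inr (Or.inr (Or.inr (Or.inl ⟨ht, hs⟩)))
  · rcases lt_trichotomy (Encodable.encode s) (Encodable.encode t) with h | h | h
    · exact Or.inl (Or.inr (Or.inr ⟨hs, ht, h⟩))
    · exact Or.inr (Or.inl (Encodable.encode_injective h))
    · exact Or.inr (Or.inr (Or.inr (Or.inr ⟨ht, hs, h⟩)))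

lemma L_wf_iff (x : ℕ → ℕ) : WellFounded (L x) ↔ x ∉ D := by
  constructor
  · rintro hwf ⟨y, hy⟩
    have hmem : ∀ n, res y n ∈ T x := by
      intro n k hk
      rw [length_res] at hk
      rw [res_take _ hk]
      exact hy k
    obtain ⟨m, ⟨n, rfl⟩, hm⟩ := hwf.has_min (range fun n => res y n) ⟨_, ⟨0, rfl⟩⟩
    refine hm (res y (n + 1)) ⟨n + 1, rfl⟩ (Or.inl ⟨hmem _, hmem _, ?_⟩)
    change kb (res y (n + 1)) (res y n)
    rw [res_succ]
    exact kb_ext _ (by simp)
  · intro hx
    rw [WellFounded.wellFounded_iff_has_min]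
    intro Z hZ
    by_cases h : (Z ∩ T x).Nonempty
    · have h1 : ∃ m ∈ Z ∩ T x, ∀ w ∈ Z ∩ T x, ¬ kb w m := by
        by_contra hcon
        push Not at hcon
        exact hx (mem_D_of_bad ⟨Z ∩ T x, h, fun z hz => ⟨hz.2, List.nil_prefix⟩, hcon⟩)
      obtain ⟨m, hm, hmin⟩ := h1
      refine ⟨m, hm.1, fun w hw hL => ?_⟩
      rcases hL with ⟨a1, a2, a3⟩ | ⟨a1, a2⟩ | ⟨a1, a2, a3⟩
      · exact hmin w ⟨hw, a1⟩ a3
      · exact a2 hm.2
      · exact a2 hm.2
    · obtain ⟨m, hm, hmin⟩ := (InvImage.wf (Encodable.encode : List ℕ → ℕ)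
        (wellFounded_lt (α := ℕ))).has_min Z hZ
      refine ⟨m, hm, fun w hw hL => ?_⟩
      rcases hL with ⟨a1, a2, a3⟩ | ⟨a1, a2⟩ | ⟨a1, a2, a3⟩
      · exact h ⟨w, hw, a1⟩
      · exact h ⟨w, hw, a1⟩
      · exact hmin w hw a3

lemma meas_res (k : ℕ) : ∀ v : List ℕ, MeasurableSet {x : ℕ → ℕ | res x k = v} := by
  induction k with
  | zero =>
    intro v
    simp only [res_zero]
    exact MeasurableSet.const _
  | succ k ih =>
    intro v
    rcases List.eq_nil_or_concat v with rfl | ⟨v', a, rfl⟩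
    · have : {x : ℕ → ℕ | res x (k + 1) = []} = ∅ := by
        ext x
        simp [res_succ]
      rw [this]
      exact MeasurableSet.empty
    · have : {x : ℕ → ℕ | res x (k + 1) = v'.concat a} =
          {x | res x k = v'} ∩ {x | x k = a} := by
        ext x
        simp [res_succ]
      rw [this]
      exact (ih v').inter (measurableSet_eq_fun (measurable_pi_apply k) measurable_const)

lemma meas_T (s : List ℕ) : MeasurableSet {x : ℕ → ℕ | s ∈ T x} := by
  have : {x : ℕ → ℕ | s ∈ T x} = ⋂ k ∈ Finset.range (s.length + 1), ⋃ v : List ℕ,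
      {x | res x k = v} ∩ {x | x (code v (s.take k)) = 0} := by
    ext x
    simp only [T, mem_iInter, mem_iUnion, mem_inter_iff, Finset.mem_range,
      Nat.lt_succ_iff]
    constructor
    · intro h k hk
      exact ⟨res x k, rfl, h k hk⟩
    · intro h k hk
      obtain ⟨v, rfl, h2⟩ := h k hk
      exact h2
  rw [this]
  refine Finset.measurableSet_biInter _ fun k _ => MeasurableSet.iUnion fun v => ?_
  exact (meas_res k v).inter (measurableSet_eq_fun (measurable_pi_apply _) measurable_const)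

end OrdersAux

open OrdersAux

theorem exists_nonBorel_orders : ∃ r : (ℕ → ℕ) → ℕ → ℕ → Prop,
    (∀ a b, MeasurableSet {x | r x a b}) ∧ (∀ x, IsStrictTotalOrder ℕ (r x)) ∧
    ¬ MeasurableSet {x | WellFounded (r x)} := by
  classical
  let e : List ℕ ≃ ℕ := Denumerable.eqv (List ℕ)
  refine ⟨fun x a b => L x (e.symm a) (e.symm b), ?_, ?_, ?_⟩
  · intro a b
    have h1 := meas_T (e.symm a)
    have h2 := meas_T (e.symm b)
    have h3 : {x | L x (e.symm a) (e.symm b)} =
        ({x | e.symm a ∈ T x} ∩ ({x | e.symm b ∈ T x} ∩ {_x | kb (e.symm a) (e.symm b)})) ∪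
        (({x | e.symm a ∈ T x} ∩ {x | e.symm b ∈ T x}ᶜ) ∪
        ({x | e.symm a ∈ T x}ᶜ ∩ ({x | e.symm b ∈ T x}ᶜ ∩
          {_x | Encodable.encode (e.symm a) < Encodable.encode (e.symm b)}))) := by
      ext x
      rfl
    rw [h3]
    exact (h1.inter (h2.inter (MeasurableSet.const _))).union ((h1.inter h2.compl).union
      (h1.compl.inter (h2.compl.inter (MeasurableSet.const _))))
  · intro x
    exact
      { trichotomous := by
          intro a b h1 h2
          rcases L_tri x (e.symm a) (e.symm b) with h | h | h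
          · exact absurd h h1
          · exact e.symm.injective h
          · exact absurd h h2
        irrefl := fun a => L_irrefl x _
        trans := fun a b c h1 h2 => L_trans x h1 h2 }
  · intro hm
    apply D_not_measurable
    have h1 : {x : ℕ → ℕ | WellFounded fun a b => L x (e.symm a) (e.symm b)} = Dᶜ := by
      ext x
      change WellFounded _ ↔ x ∉ D
      rw [← L_wf_iff]
      constructor
      · intro h
        have h2 := InvImage.wf e h
        have h3 : InvImage (fun a b => L x (e.symm a) (e.symm b)) e = L x := by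
          funext s t
          simp [InvImage]
        rwa [h3] at h2
      · intro h
        exact InvImage.wf e.symm h
    have h2 := hm.compl
    rw [h1, compl_compl] at h2
    exact h2

end Pool.MPcae7fa
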