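import Pool.Agent.Lib.MP_cae7fa_lc.Named
import Pool.Agent.Lib.MP_cae7fa_lc.Orders
import Pool.Agent.Lib.MP_cae7fa_lc.Colex

/-!
# After naming the constant the theory is not Borel complete
-/

namespace Pool.MPcae7fa

open FirstOrder FirstOrder.Language MeasureTheory

theorem isCountable_Lc : IsCountable Lc := by
  obtain ⟨h1, h2⟩ := isCountable_Lprof
  have e : IsEmpty (Σ n, (constantsOn Unit).Relations n) := ⟨fun x => Empty.elim x.2⟩
  constructor
  · let f : (Σ n, Lc.Functions n) → ℕ := fun x => x.1
    have hf : Function.Injective f := by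
      rintro ⟨n, a | a⟩ ⟨m, b | b⟩ h
      · exact Empty.elim a
      · exact Empty.elim a
      · exact Empty.elim b
      · change n = m at h
        subst h
        cases n with
        | zero => rfl
        | succ n => exact PEmpty.elim a
    exact hf.countable
  · let f : (Σ n, Lc.Relations n) → (Σ n, Lprof.Relations n) := fun x =>
      match x with
      | ⟨n, Sum.inl r⟩ => ⟨n, r⟩
      | ⟨_, Sum.inr r⟩ => Empty.elim r
    have hf : Function.Injective f := by
      rintro ⟨n, a | a⟩ ⟨m, b | b⟩ h
      · change (⟨n, a⟩ : Σ n, Lprof.Relations n) = ⟨m, b⟩ at h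
        cases h
        rfl
      · exact Empty.elim b
      · exact Empty.elim a
      · exact Empty.elim a
    exact hf.countable

theorem measurableSet_cval (y : ℕ) :
    @MeasurableSet (ModTh Tc) (borelOn _) {S | cval S.1 = y} :=
  measurableSet_fun (K := ModTh Tc) (Sum.inr () : Lc.Functions 0) Fin.elim0 y

theorem measurableSet_kap (y : ℕ) (i : Option (Σ n, F n)) :
    @MeasurableSet (ModTh Tc) (borelOn _) {S | kap S.1 y i} := by
  let := borelOn (ModTh Tc)
  rcases i with _ | ⟨n, f⟩
  · have e : {S : ModTh Tc | kap S.1 y none} = {S | cval S.1 = y} := by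
      ext S
      exact eq_comm
    rw [e]
    exact measurableSet_cval y
  · have e : {S : ModTh Tc | kap S.1 y (some ⟨n, f⟩)} =
        ⋃ c : ℕ, ({S | cval S.1 = c} ∩
          {S | @Structure.RelMap Lc ℕ S.1 2 (symc n (base n) f) ![c, y]}) := by
      ext S
      simp only [Set.mem_iUnion, Set.mem_inter_iff]
      constructor
      · intro h
        exact ⟨cval S.1, rfl, h⟩
      · rintro ⟨c, h1, h2⟩
        change cval S.1 = c at h1
        subst h1
        exact h2
    rw [e]
    exact MeasurableSet.iUnion fun c => (measurableSet_cval c).inter (measurableSet_rel _ _)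

theorem measurableSet_iso {Ω : Type} [MeasurableSpace Ω] (g g' : Ω → ModTh Tc)
    (hg : @Measurable Ω (ModTh Tc) _ (borelOn _) g)
    (hg' : @Measurable Ω (ModTh Tc) _ (borelOn _) g') :
    MeasurableSet {ω | Iso (g ω).1 (g' ω).1} := by
  have hk : ∀ y i, Measurable (fun ω => kap (g ω).1 y i) := fun y i =>
    measurableSet_setOfPred.1 (@measurableSet_preimage Ω (ModTh Tc) _ _ (borelOn _) _ hg (measurableSet_kap y i))
  have hk' : ∀ y i, Measurable (fun ω => kap (g' ω).1 y i) := fun y i =>
    measurableSet_setOfPred.1 (@measurableSet_preimage Ω (ModTh Tc) _ _ (borelOn _) _ hg' (measurableSet_kap y i))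
  have hcmp : ∀ (u v : Ω → Option (Σ n, F n) → Prop), (∀ i, Measurable (fun ω => u ω i)) →
      (∀ i, Measurable (fun ω => v ω i)) → Measurable (fun ω => u ω = v ω) := by
    intro u v hu hv
    have : (fun ω => u ω = v ω) = fun ω => ∀ i, (u ω i ↔ v ω i) := by
      funext ω
      rw [funext_iff]
      simp only [eq_iff_iff]
    rw [this]
    exact Measurable.forall fun i => (hu i).iff (hv i)
  have hcount : ∀ (u : ℕ → Ω → Option (Σ n, F n) → Prop) (v : Ω → Option (Σ n, F n) → Prop) (m : ℕ),
      (∀ y i, Measurable (fun ω => u y ω i)) → (∀ i, Measurable (fun ω => v ω i)) →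
      Measurable (fun ω => ∃ s : Finset ℕ, s.card = m ∧ ∀ y ∈ s, u y ω = v ω) := by
    intro u v m hu hv
    refine Measurable.exists fun s => measurable_const.and ?_
    exact Measurable.forall fun y => measurable_const.imp (hcmp _ _ (hu y) hv)
  have e : {ω | Iso (g ω).1 (g' ω).1} = {ω | ∀ x : ℕ, ∀ m : ℕ,
        ((∃ s : Finset ℕ, s.card = m ∧ ∀ y ∈ s, kap (g ω).1 y = kap (g ω).1 x) ↔
          (∃ s : Finset ℕ, s.card = m ∧ ∀ y ∈ s, kap (g' ω).1 y = kap (g ω).1 x)) ∧
        ((∃ s : Finset ℕ, s.card = m ∧ ∀ y ∈ s, kap (g ω).1 y = kap (g' ω).1 x) ↔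
          (∃ s : Finset ℕ, s.card = m ∧ ∀ y ∈ s, kap (g' ω).1 y = kap (g' ω).1 x))} := by
    ext ω
    change Iso (g ω).1 (g' ω).1 ↔ _
    rw [iso_iff_kap (g ω).2 (g' ω).2, exists_equiv_iff_count]
    rfl
  rw [e]
  refine measurableSet_setOfPred.2 ?_
  refine Measurable.forall fun x => Measurable.forall fun m => ?_
  refine ((hcount (fun y ω => kap (g ω).1 y) (fun ω => kap (g ω).1 x) m hk (hk x)).iff
    (hcount (fun y ω => kap (g' ω).1 y) (fun ω => kap (g ω).1 x) m hk' (hk x))).and
    ((hcount (fun y ω => kap (g ω).1 y) (fun ω => kap (g' ω).1 x) m hk (hk' x)).iff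
    (hcount (fun y ω => kap (g' ω).1 y) (fun ω => kap (g' ω).1 x) m hk' (hk' x)))

/-- One binary relation symbol. -/
inductive OneRel : ℕ → Type
  | r : OneRel 2

/-- The language with one binary relation symbol. -/
def Lone : FirstOrder.Language.{0, 0} := ⟨fun _ => Empty, OneRel⟩

/-- Interpretation. -/
def oneInterp {A : Type} (t : A → A → Prop) : {k : ℕ} → OneRel k → (Fin k → A) → Prop
  | _, OneRel.r, v => t (v 0) (v 1)

/-- The structure given by a binary relation. -/
@[instance_reducible]
def ostr {A : Type} (t : A → A → Prop) : Lone.Structure A where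
  funMap := fun f => Empty.elim f
  RelMap := fun R v => oneInterp t R v

theorem isCountable_Lone : IsCountable Lone := by
  constructor
  · have : IsEmpty (Σ n, Lone.Functions n) := ⟨fun x => Empty.elim x.2⟩
    infer_instance
  · have hf : Function.Injective (fun _ : (Σ n, Lone.Relations n) => ()) := by
      rintro ⟨_, ⟨⟩⟩ ⟨_, ⟨⟩⟩ _
      rfl
    exact hf.countable

theorem iso_ostr_iff (t t' : ℕ → ℕ → Prop) :
    Iso (ostr t) (ostr t') ↔ ∃ e : ℕ ≃ ℕ, ∀ a b, t' (e a) (e b) ↔ t a b := by
  constructor
  · rintro ⟨⟨e, -, he⟩⟩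
    exact ⟨e, fun a b => he (OneRel.r : Lone.Relations 2) ![a, b]⟩
  · rintro ⟨e, he⟩
    refine ⟨@FirstOrder.Language.Equiv.mk Lone ℕ ℕ (ostr t) (ostr t') e (fun {k} f v => Empty.elim f)
      (fun {k} r v => ?_)⟩
    cases r with
    | r => exact he (v 0) (v 1)

/-- A true infinitary sentence. -/
def topInf (L : FirstOrder.Language.{0, 0}) : InfFormula L 0 :=
  InfFormula.all (InfFormula.equal (Term.var 0) (Term.var 0))

theorem mem_topInf {L : FirstOrder.Language.{0, 0}} (S : L.Structure ℕ) : S ∈ ModInf (topInf L) :=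
  fun _ => rfl

/-- If the isomorphism relation of a class is Borel, the class is not Borel complete. -/
theorem not_borelComplete_of_borel {L : FirstOrder.Language.{0, 0}} (K : Set (L.Structure ℕ))
    (hK : ∀ g g' : (ℕ → ℕ) → K, @Measurable _ K _ (borelOn _) g → @Measurable _ K _ (borelOn _) g' →
      MeasurableSet {x | Iso (g x).1 (g' x).1}) : ¬ BorelComplete K := by
  intro hbc
  obtain ⟨f, hf, hiso⟩ := hbc Lone isCountable_Lone (topInf Lone)
  obtain ⟨ρ, hmeas, hord, hnot⟩ := exists_nonBorel_orders
  obtain ⟨E0⟩ := nonempty_equiv_of_countable (α := Finset ℕ) (β := ℕ)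
  obtain ⟨E1⟩ := nonempty_equiv_of_countable (α := Finset (Option ℕ)) (β := ℕ)
  let A : (ℕ → ℕ) → ModInf (topInf Lone) := fun x =>
    ⟨ostr (fun a b => cl (ρ x) (E0.symm a) (E0.symm b)), mem_topInf _⟩
  let B : (ℕ → ℕ) → ModInf (topInf Lone) := fun x =>
    ⟨ostr (fun a b => cl (topRel (ρ x)) (E1.symm a) (E1.symm b)), mem_topInf _⟩
  have hcl : ∀ {α : Type} [Countable α] (t : (ℕ → ℕ) → α → α → Prop)
      (_ : ∀ a b, Measurable (fun x => t x a b)) (P Q : Finset α),
      Measurable (fun x => cl (t x) P Q) := by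
    intro α _ t ht P Q
    unfold cl
    refine Measurable.exists fun b => measurable_const.and (measurable_const.and ?_)
    exact Measurable.forall fun c => (ht b c).imp measurable_const
  have hr1 : ∀ a b, Measurable (fun x => ρ x a b) := fun a b => measurableSet_setOfPred.1 (hmeas a b)
  have hr2 : ∀ a b, Measurable (fun x => topRel (ρ x) a b) := by
    intro a b
    rcases a with _ | a <;> rcases b with _ | b
    · exact measurable_const
    · exact measurable_const
    · exact measurable_const
    · exact hr1 a b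
  have hA : @Measurable _ _ _ (borelOn _) A := by
    refine measurable_into isCountable_Lone _ (fun {k} s v => ?_) (fun {k} f v y => Empty.elim f)
    cases s with
    | r => exact measurableSet_setOfPred.2 (hcl ρ hr1 (E0.symm (v 0)) (E0.symm (v 1)))
  have hB : @Measurable _ _ _ (borelOn _) B := by
    refine measurable_into isCountable_Lone _ (fun {k} s v => ?_) (fun {k} f v y => Empty.elim f)
    cases s with
    | r => exact measurableSet_setOfPred.2 (hcl _ hr2 (E1.symm (v 0)) (E1.symm (v 1)))
  have key : ∀ x, Iso (A x).1 (B x).1 ↔ ¬ WellFounded (ρ x) := by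
    intro x
    rw [← colex_iff (ρ x) (hord x)]
    change Iso (ostr _) (ostr _) ↔ _
    rw [iso_ostr_iff]
    constructor
    · rintro ⟨e, he⟩
      refine ⟨E0.trans (e.trans E1.symm), fun P Q => ?_⟩
      have := he (E0 P) (E0 Q)
      simp only [Equiv.symm_apply_apply] at this
      exact this.symm
    · rintro ⟨e, he⟩
      refine ⟨E0.symm.trans (e.trans E1), fun a b => ?_⟩
      simp only [Equiv.trans_apply, Equiv.symm_apply_apply]
      exact (he _ _).symm
  apply hnot
  have h1 := hK (fun x => f (A x)) (fun x => f (B x))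
    (@Measurable.comp _ _ _ _ (borelOn _) (borelOn _) _ _ hf hA)
    (@Measurable.comp _ _ _ _ (borelOn _) (borelOn _) _ _ hf hB)
  have e : {x | WellFounded (ρ x)} = {x | Iso (f (A x)).1 (f (B x)).1}ᶜ := by
    ext x
    change WellFounded (ρ x) ↔ ¬ Iso (f (A x)).1 (f (B x)).1
    rw [← hiso, key, not_not]
  rw [e]
  exact h1.compl

/-- The theory with the constant named is not Borel complete. -/
theorem not_borelComplete_Tc : ¬ BorelComplete (ModTh Tc) :=
  not_borelComplete_of_borel _ fun g g' hg hg' => measurableSet_iso g g' hg hg'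

end Pool.MPcae7fa
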