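import Pool.Agent.Lib.MP_cae7fa_lc.Defs

/-!
# The profinite language and its structures
-/

namespace Pool.MPcae7fa

open FirstOrder FirstOrder.Language

/-- The alphabet of level `n`: a label and a partial sequence of points. -/
abbrev F (n : ℕ) : Type := Fin (n + 1) × (Fin (n + 1) → Option (Fin (n + 1)))

/-- The action of a permutation of the points of level `n` on the alphabet of level `n`. -/
def act {n : ℕ} (g : Equiv.Perm (Fin (n + 1))) (f : F n) : F n :=
  (f.1, fun j => (f.2 j).map g)

theorem act_act {n : ℕ} (g h : Equiv.Perm (Fin (n + 1))) (f : F n) :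
    act g (act h f) = act (g * h) f := by
  simp only [act, Option.map_map, Equiv.Perm.coe_mul]

theorem act_one {n : ℕ} (f : F n) : act 1 f = f := by
  simp only [act, Equiv.Perm.coe_one, Option.map_id, id]

theorem act_inv_act {n : ℕ} (g : Equiv.Perm (Fin (n + 1))) (f : F n) : act g⁻¹ (act g f) = f := by
  rw [act_act, inv_mul_cancel, act_one]

theorem act_act_inv {n : ℕ} (g : Equiv.Perm (Fin (n + 1))) (f : F n) : act g (act g⁻¹ f) = f := by
  rw [act_act, mul_inv_cancel, act_one]

/-- Two pairs of letters of level `n` are in the same orbit. -/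
def SameOrbit {n : ℕ} (p q : F n × F n) : Prop :=
  ∃ g : Equiv.Perm (Fin (n + 1)), act g p.1 = q.1 ∧ act g p.2 = q.2

theorem SameOrbit.refl {n : ℕ} (p : F n × F n) : SameOrbit p p := ⟨1, act_one _, act_one _⟩

/-- The base letter of level `n`; its stabiliser is trivial. -/
def base (n : ℕ) : F n := (0, fun j => some j)

theorem act_base_inj {n : ℕ} {g h : Equiv.Perm (Fin (n + 1))} (e : act g (base n) = act h (base n)) :
    g = h := by
  ext j
  have := congrFun (congrArg Prod.snd e) j
  simp only [act, base, Option.map_some, Option.some.injEq] at this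
  rw [this]

/-- The relation symbols: a binary symbol for each level and each pair of letters. -/
inductive Sym : ℕ → Type
  | R (n : ℕ) (f f' : F n) : Sym 2

/-- The language. -/
def Lprof : FirstOrder.Language.{0, 0} := ⟨fun _ => Empty, Sym⟩

/-- Interpretation of the symbols. -/
def symInterp {A : Type} (t : A → ∀ n, F n) : {k : ℕ} → Sym k → (Fin k → A) → Prop
  | _, Sym.R n f f', v => SameOrbit (f, f') (t (v 0) n, t (v 1) n)

/-- The structure on `A` given by a labelling of the elements by points of the product of the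
alphabets. -/
@[instance_reducible]
def str {A : Type} (t : A → ∀ n, F n) : Lprof.Structure A where
  funMap := fun f => Empty.elim f
  RelMap := fun R v => symInterp t R v

theorem isCountable_Lprof : IsCountable Lprof := by
  constructor
  · have : IsEmpty (Σ n, Lprof.Functions n) := ⟨fun x => Empty.elim x.2⟩
    infer_instance
  · let f : (Σ n, Lprof.Relations n) → (Σ n : ℕ, F n × F n) := fun x =>
      match x with
      | ⟨_, Sym.R n f f'⟩ => ⟨n, f, f'⟩
    have hf : Function.Injective f := by
      rintro ⟨_, ⟨n, f1, f2⟩⟩ ⟨_, ⟨m, g1, g2⟩⟩ h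
      simp only [f, Sigma.mk.injEq] at h
      obtain ⟨rfl, h⟩ := h
      simp only [heq_eq_eq, Prod.mk.injEq] at h
      obtain ⟨rfl, rfl⟩ := h
      rfl
    exact hf.countable

/-- A bijection respecting the relations. -/
def IsIso {A B : Type} (t : A → ∀ n, F n) (t' : B → ∀ n, F n) (e : A ≃ B) : Prop :=
  ∀ (n : ℕ) (f f' : F n) (a b : A),
    SameOrbit (f, f') (t' (e a) n, t' (e b) n) ↔ SameOrbit (f, f') (t a n, t b n)

theorem nonempty_equiv_iff {A B : Type} (t : A → ∀ n, F n) (t' : B → ∀ n, F n) :
    Nonempty (@FirstOrder.Language.Equiv Lprof A B (str t) (str t')) ↔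
      ∃ e : A ≃ B, IsIso t t' e := by
  constructor
  · rintro ⟨⟨e, -, he⟩⟩
    exact ⟨e, fun n f f' a b => he (Sym.R n f f' : Lprof.Relations 2) ![a, b]⟩
  · rintro ⟨e, he⟩
    let := str t
    let := str t'
    refine ⟨⟨e, fun {n} f v => Empty.elim f, fun {n} r v => ?_⟩⟩
    cases r with
    | R n f f' => exact he n f f' (v 0) (v 1)

/-- A labelling-preserving bijection up to the level groups is an isomorphism. -/
theorem isIso_of_act {A B : Type} (t : A → ∀ n, F n) (t' : B → ∀ n, F n) (e : A ≃ B)
    (g : ∀ n, Equiv.Perm (Fin (n + 1))) (h : ∀ a n, t' (e a) n = act (g n) (t a n)) :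
    IsIso t t' e := by
  intro n f f' a b
  rw [h, h]
  constructor
  · rintro ⟨k, h1, h2⟩
    simp only at h1 h2
    refine ⟨(g n)⁻¹ * k, ?_, ?_⟩
    · simp only
      rw [← act_act, h1, act_inv_act]
    · simp only
      rw [← act_act, h2, act_inv_act]
  · rintro ⟨k, h1, h2⟩
    simp only at h1 h2
    refine ⟨g n * k, ?_, ?_⟩
    · simp only
      rw [← act_act, h1]
    · simp only
      rw [← act_act, h2]

/-- Conversely an isomorphism preserves the labelling up to the level groups, when each base
letter occurs. -/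
theorem act_of_isIso {A B : Type} (t : A → ∀ n, F n) (t' : B → ∀ n, F n)
    (hbase : ∀ n, ∃ a, t a n = base n) (e : A ≃ B) (he : IsIso t t' e) :
    ∃ g : ∀ n, Equiv.Perm (Fin (n + 1)), ∀ a n, t' (e a) n = act (g n) (t a n) := by
  have key : ∀ n, ∃ g : Equiv.Perm (Fin (n + 1)), ∀ a, t' (e a) n = act g (t a n) := by
    intro n
    obtain ⟨a0, ha0⟩ := hbase n
    have h1 : ∀ a, SameOrbit (base n, t a n) (t' (e a0) n, t' (e a) n) := by
      intro a
      refine (he n _ _ a0 a).2 ?_
      rw [ha0]
      exact SameOrbit.refl _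
    obtain ⟨g, hg, -⟩ := h1 a0
    refine ⟨g, fun a => ?_⟩
    obtain ⟨k, hk, hk'⟩ := h1 a
    have : k = g := act_base_inj (hk.trans hg.symm)
    rw [← this]
    exact hk'.symm
  choose g hg using key
  exact ⟨g, fun a n => hg n a⟩

/-- The truth of a formula only depends on finitely many levels. -/
theorem realize_level {α : Type} {m : ℕ} (φ : Lprof.BoundedFormula α m) :
    ∃ N : ℕ, ∀ {A B : Type} (t : A → ∀ n, F n) (t' : B → ∀ n, F n) (e : A ≃ B),
      (∀ k < N, ∀ a, t' (e a) k = t a k) → ∀ (v : α → A) (xs : Fin m → A),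
      (@BoundedFormula.Realize Lprof A (str t) α m φ v xs ↔
        @BoundedFormula.Realize Lprof B (str t') α m φ (e ∘ v) (e ∘ xs)) := by
  have hterm : ∀ {m : ℕ} (u : Lprof.Term (α ⊕ Fin m)) {A B : Type} (t : A → ∀ n, F n)
      (t' : B → ∀ n, F n) (e : A ≃ B) (v : α → A) (xs : Fin m → A),
      e (@Term.realize Lprof A (str t) _ (Sum.elim v xs) u) =
        @Term.realize Lprof B (str t') _ (Sum.elim (e ∘ v) (e ∘ xs)) u := by
    intro m u A B t t' e v xs
    cases u with
    | var i => cases i <;> rfl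
    | func f ts => exact Empty.elim f
  induction φ with
  | falsum => exact ⟨0, fun t t' e _ v xs => Iff.rfl⟩
  | equal t₁ t₂ =>
    refine ⟨0, fun t t' e _ v xs => ?_⟩
    change _ = _ ↔ _ = _
    rw [← hterm, ← hterm]
    exact e.injective.eq_iff.symm
  | rel R ts =>
    cases R with
    | R n f f' =>
      refine ⟨n + 1, fun {A B} t t' e h v xs => ?_⟩
      have a0 := hterm (ts 0) t t' e v xs
      have a1 := hterm (ts 1) t t' e v xs
      change SameOrbit (f, f') (t (@Term.realize Lprof A (str t) _ (Sum.elim v xs) (ts 0)) n,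
          t (@Term.realize Lprof A (str t) _ (Sum.elim v xs) (ts 1)) n) ↔
        SameOrbit (f, f') (t' (@Term.realize Lprof B (str t') _ (Sum.elim (e ∘ v) (e ∘ xs)) (ts 0)) n,
          t' (@Term.realize Lprof B (str t') _ (Sum.elim (e ∘ v) (e ∘ xs)) (ts 1)) n)
      rw [← a0, ← a1, h n (Nat.lt_succ_self n), h n (Nat.lt_succ_self n)]
  | imp φ ψ ih1 ih2 =>
    obtain ⟨N1, h1⟩ := ih1
    obtain ⟨N2, h2⟩ := ih2
    refine ⟨max N1 N2, fun t t' e h v xs => ?_⟩
    have a1 := h1 t t' e (fun k hk => h k (lt_of_lt_of_le hk (le_max_left _ _))) v xs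
    have a2 := h2 t t' e (fun k hk => h k (lt_of_lt_of_le hk (le_max_right _ _))) v xs
    change (_ → _) ↔ (_ → _)
    rw [a1, a2]
  | all φ ih =>
    obtain ⟨N, h1⟩ := ih
    refine ⟨N, fun t t' e h v xs => ?_⟩
    change (∀ _, _) ↔ (∀ _, _)
    constructor
    · intro H b
      have := (h1 t t' e h v (Fin.snoc xs (e.symm b))).1 (H (e.symm b))
      have h3 : e ∘ (Fin.snoc xs (e.symm b) : Fin _ → _) = Fin.snoc (e ∘ xs) b := by
        rw [Fin.comp_snoc, Equiv.apply_symm_apply]
      rw [h3] at this
      exact this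
    · intro H a
      refine (h1 t t' e h v (Fin.snoc xs a)).2 ?_
      have h3 : e ∘ (Fin.snoc xs a : Fin _ → _) = Fin.snoc (e ∘ xs) (e a) := by
        rw [Fin.comp_snoc]
      rw [h3]
      exact H (e a)

/-- Elementary equivalence from approximate isomorphisms. -/
theorem realize_iff_of_levels {A B : Type} (t : A → ∀ n, F n) (t' : B → ∀ n, F n)
    (h : ∀ N, ∃ e : A ≃ B, ∀ k < N, ∀ a, t' (e a) k = t a k) (φ : Lprof.Sentence) :
    (@Sentence.Realize Lprof A (str t) φ ↔ @Sentence.Realize Lprof B (str t') φ) := by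
  obtain ⟨N, hN⟩ := realize_level φ
  obtain ⟨e, he⟩ := h N
  have := hN t t' e he default default
  unfold Sentence.Realize Formula.Realize
  rw [this]
  have h1 : (e ∘ (default : Empty → A)) = default := Subsingleton.elim _ _
  have h2 : (e ∘ (default : Fin 0 → A)) = default := Subsingleton.elim _ _
  rw [h1, h2]

/-- Two maps with the same range all of whose nonempty fibres are infinite differ by a
bijection. -/
theorem exists_equiv_of_fibers {A B X : Type} [Countable A] [Countable B] (f : A → X) (f' : B → X)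
    (hf : ∀ a, (f ⁻¹' {f a}).Infinite) (hf' : ∀ b, (f' ⁻¹' {f' b}).Infinite)
    (h : Set.range f = Set.range f') : ∃ e : A ≃ B, ∀ a, f' (e a) = f a := by
  have key : ∀ x : X, Nonempty ({a // f a = x} ≃ {b // f' b = x}) := by
    intro x
    by_cases hx : x ∈ Set.range f
    · have hx' : x ∈ Set.range f' := h ▸ hx
      obtain ⟨a, rfl⟩ := hx
      obtain ⟨b, hb⟩ := hx'
      have i1 : Infinite {a' // f a' = f a} := (hf a).to_subtype
      have i2 : Infinite {b' // f' b' = f a} := by
        have := (hf' b).to_subtype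
        rw [hb] at this
        exact this
      exact nonempty_equiv_of_countable
    · have hx' : x ∉ Set.range f' := h ▸ hx
      have e1 : IsEmpty {a // f a = x} := ⟨fun a => hx ⟨a.1, a.2⟩⟩
      have e2 : IsEmpty {b // f' b = x} := ⟨fun b => hx' ⟨b.1, b.2⟩⟩
      exact ⟨Equiv.equivOfIsEmpty _ _⟩
  have k : ∀ x : X, {a // f a = x} ≃ {b // f' b = x} := fun x => (key x).some
  refine ⟨(Equiv.sigmaFiberEquiv f).symm.trans
    ((Equiv.sigmaCongrRight k).trans (Equiv.sigmaFiberEquiv f')), fun a => ?_⟩
  exact (k (f a) ⟨a, rfl⟩).2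

end Pool.MPcae7fa
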