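import Pool.Agent.Lib.MP_cae7fa_lc.Coding

/-!
# The complete theory and the coding of arbitrary countable structures
-/

namespace Pool.MPcae7fa

open FirstOrder FirstOrder.Language Filter

/-- The labelling of the structure containing the point to be named (`none`). -/
noncomputable def labN : Option Car → ∀ n, F n
  | none => base
  | some a => lab (fun _ => False) a

/-- The theory. -/
noncomputable def Tprof : Lprof.Theory :=
  @completeTheory Lprof (Option Car) (str labN)

theorem exists_approx (D : Code → Prop) (N : ℕ) :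
    ∃ e : Car ≃ Option Car, ∀ k < N, ∀ a, labN (e a) k = lab D a k := by
  have hrow : ∀ (D : Code → Prop) (w : (k : Fin N) → F k) (q : Code) (k : Fin N),
      lab D (q, ⟨N, w⟩) k = w k := by
    intro D w q k
    unfold lab
    simp only [k.2, dif_pos]
  have hinj : ∀ w : (k : Fin N) → F k,
      Function.Injective (fun q : Code => ((q, ⟨N, w⟩) : Car)) := by
    intro w q q' h
    exact congrArg Prod.fst h
  have hinf : ∀ (D : Code → Prop) (w : (k : Fin N) → F k),
      {a : Car | (fun k : Fin N => lab D a k) = w}.Infinite := by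
    intro D w
    refine Set.infinite_of_injective_forall_mem (hinj w) (fun q => ?_)
    funext k
    exact hrow D w q k
  obtain ⟨e, he⟩ := exists_equiv_of_fibers (fun (a : Car) => (fun k : Fin N => lab D a k))
    (fun (a : Option Car) => (fun k : Fin N => labN a k))
    (fun a => hinf D _)
    (fun b => by
      refine ((hinf (fun _ => False) (fun k : Fin N => labN b k)).image
        (Option.some_injective _).injOn).mono ?_
      rintro _ ⟨a, ha, rfl⟩
      exact ha)
    (by
      have h1 : Set.range (fun (a : Car) => (fun k : Fin N => lab D a k)) = Set.univ := by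
        rw [Set.range_eq_univ]
        intro w
        exact ⟨((0, []), ⟨N, w⟩), funext (hrow D w _)⟩
      have h2 : Set.range (fun (a : Option Car) => (fun k : Fin N => labN a k)) = Set.univ := by
        rw [Set.range_eq_univ]
        intro w
        exact ⟨some ((0, []), ⟨N, w⟩), funext (hrow _ w _)⟩
      rw [h1, h2])
  exact ⟨e, fun k hk a => congrFun (he a) ⟨k, hk⟩⟩

/-- A fixed enumeration of the carrier. -/
noncomputable def car : Car ≃ ℕ := (nonempty_equiv_of_countable (α := Car) (β := ℕ)).some

/-- The labelling transported to `ℕ`. -/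
noncomputable def labn (D : Code → Prop) (x : ℕ) : ∀ n, F n := lab D (car.symm x)

theorem model_labn (D : Code → Prop) : str (labn D) ∈ ModTh Tprof := by
  let := str (labn D)
  change ℕ ⊨ Tprof
  refine ⟨fun φ hφ => ?_⟩
  refine (realize_iff_of_levels labN (labn D) (fun N => ?_) φ).1 hφ
  obtain ⟨e, he⟩ := exists_approx D N
  refine ⟨e.symm.trans car, fun k hk a => ?_⟩
  have := he k hk (e.symm a)
  rw [Equiv.apply_symm_apply] at this
  simp only [labn, Equiv.trans_apply, Equiv.symm_apply_apply]
  exact this.symm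

theorem iso_labn_iff (D D' : Code → Prop) :
    Iso (str (labn D)) (str (labn D')) ↔
      ∃ σ : Equiv.Perm ℕ, ∀ q, Hat D q ↔ Hat D' (cact σ q) := by
  unfold Iso
  rw [nonempty_equiv_iff]
  constructor
  · rintro ⟨e, he⟩
    refine conj_of_isIso (car.trans (e.trans car.symm)) (fun n f f' a b => ?_)
    have := he n f f' (car a) (car b)
    simp only [labn, Equiv.symm_apply_apply] at this
    exact this
  · rintro ⟨σ, hσ⟩
    obtain ⟨e, he⟩ := exists_isIso_of_conj hσ
    refine ⟨car.symm.trans (e.trans car), fun n f f' a b => ?_⟩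
    have := he n f f' (car.symm a) (car.symm b)
    simp only [labn, Equiv.trans_apply, Equiv.symm_apply_apply]
    exact this

section Facts

variable {L : FirstOrder.Language.{0, 0}} (encF : (Σ n, L.Functions n) → ℕ)
  (encR : (Σ n, L.Relations n) → ℕ)

/-- The set of codes of the facts true in a structure. -/
def Facts (S : L.Structure ℕ) (q : Code) : Prop :=
  (∃ (f : Σ n, L.Functions n) (v : Fin f.1 → ℕ) (y : ℕ), q = (2 * encF f + 1, List.ofFn v ++ [y]) ∧
      @Structure.funMap L ℕ S _ f.2 v = y) ∨
    ∃ (r : Σ n, L.Relations n) (v : Fin r.1 → ℕ), q = (2 * encR r + 2, List.ofFn v) ∧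
      @Structure.RelMap L ℕ S _ r.2 v

theorem facts_pos {S : L.Structure ℕ} {q : Code} (h : Facts encF encR S q) : q.1 ≠ 0 := by
  rcases h with ⟨f, v, y, rfl, -⟩ | ⟨r, v, rfl, -⟩
  · simp
  · simp

theorem facts_fun_iff (hF : Function.Injective encF) (S : L.Structure ℕ)
    (f : Σ n, L.Functions n) (v : Fin f.1 → ℕ) (y : ℕ) :
    Facts encF encR S (2 * encF f + 1, List.ofFn v ++ [y]) ↔
      @Structure.funMap L ℕ S _ f.2 v = y := by
  constructor
  · rintro (⟨f', v', y', h, h'⟩ | ⟨r, v', h, -⟩)
    · rw [Prod.mk.injEq] at h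
      obtain ⟨h1, h2⟩ := h
      have : f = f' := hF (by omega)
      subst this
      obtain ⟨h3, h4⟩ := List.append_inj' h2 rfl
      have h5 : v = v' := List.ofFn_injective h3
      have h6 : y = y' := by simpa using h4
      rw [h5, h6]
      exact h'
    · rw [Prod.mk.injEq] at h
      omega
  · intro h
    exact Or.inl ⟨f, v, y, rfl, h⟩

theorem facts_rel_iff (hR : Function.Injective encR) (S : L.Structure ℕ)
    (r : Σ n, L.Relations n) (v : Fin r.1 → ℕ) :
    Facts encF encR S (2 * encR r + 2, List.ofFn v) ↔ @Structure.RelMap L ℕ S _ r.2 v := by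
  constructor
  · rintro (⟨f', v', y', h, h'⟩ | ⟨r', v', h, h'⟩)
    · rw [Prod.mk.injEq] at h
      omega
    · rw [Prod.mk.injEq] at h
      obtain ⟨h1, h2⟩ := h
      have : r = r' := hR (by omega)
      subst this
      have h5 : v = v' := List.ofFn_injective h2
      rw [h5]
      exact h'
  · intro h
    exact Or.inr ⟨r, v, rfl, h⟩

theorem cact_ofFn_append (σ : Equiv.Perm ℕ) (s k : ℕ) (v : Fin k → ℕ) (y : ℕ) :
    cact σ (s, List.ofFn v ++ [y]) = (s, List.ofFn (σ ∘ v) ++ [σ y]) := by
  simp only [cact, List.map_append, List.map_cons, List.map_nil, List.map_ofFn]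

theorem cact_ofFn (σ : Equiv.Perm ℕ) (s k : ℕ) (v : Fin k → ℕ) :
    cact σ (s, List.ofFn v) = (s, List.ofFn (σ ∘ v)) := by
  simp only [cact, List.map_ofFn]

theorem iso_iff_facts (hF : Function.Injective encF) (hR : Function.Injective encR)
    (S S' : L.Structure ℕ) :
    Iso S S' ↔ ∃ σ : Equiv.Perm ℕ, ∀ q, Facts encF encR S q ↔ Facts encF encR S' (cact σ q) := by
  constructor
  · rintro ⟨⟨σ, hf, hr⟩⟩
    have dir : ∀ (S S' : L.Structure ℕ) (σ : Equiv.Perm ℕ)
        (_ : ∀ (k : ℕ) (f : L.Functions k) (x : Fin k → ℕ),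
          σ (@Structure.funMap L ℕ S k f x) = @Structure.funMap L ℕ S' k f (σ ∘ x))
        (_ : ∀ (k : ℕ) (r : L.Relations k) (x : Fin k → ℕ),
          @Structure.RelMap L ℕ S k r x → @Structure.RelMap L ℕ S' k r (σ ∘ x)),
        ∀ q, Facts encF encR S q → Facts encF encR S' (cact σ q) := by
      intro S S' σ hf hr q hq
      rcases hq with ⟨f, v, y, rfl, h⟩ | ⟨r, v, rfl, h⟩
      · rw [cact_ofFn_append, facts_fun_iff encF encR hF, ← hf, h]
      · rw [cact_ofFn, facts_rel_iff encF encR hR]
        exact hr _ _ _ h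
    refine ⟨σ, fun q => ⟨dir S S' σ (fun k f x => hf f x) (fun k r x h => (hr r x).2 h) q,
      fun hq => ?_⟩⟩
    have := dir S' S σ.symm (fun k f x => ?_) (fun k r x h => ?_) _ hq
    · rw [cact_symm_cact] at this
      exact this
    · rw [Equiv.symm_apply_eq]
      have := hf f (σ.symm ∘ x)
      simp only [Equiv.toFun_as_coe] at this
      rw [this]
      congr 1
      funext i
      simp
    · have := (hr r (σ.symm ∘ x)).1
      simp only [Equiv.toFun_as_coe] at this
      apply this
      have e : (σ ∘ σ.symm ∘ x) = x := by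
        funext i
        simp
      rw [e]
      exact h
  · rintro ⟨σ, hσ⟩
    refine ⟨@FirstOrder.Language.Equiv.mk L ℕ ℕ S S' σ (fun {k} f x => ?_) (fun {k} r x => ?_)⟩
    · have h1 := (facts_fun_iff encF encR hF S ⟨k, f⟩ x _).2 rfl
      rw [hσ, cact_ofFn_append, facts_fun_iff encF encR hF] at h1
      exact h1.symm
    · have h1 := facts_rel_iff encF encR hR S ⟨k, r⟩ x
      rw [hσ, cact_ofFn, facts_rel_iff encF encR hR] at h1
      exact h1

theorem iso_iff_iso_labn (hF : Function.Injective encF) (hR : Function.Injective encR)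
    (S S' : L.Structure ℕ) :
    Iso S S' ↔ Iso (str (labn (Facts encF encR S))) (str (labn (Facts encF encR S'))) := by
  rw [iso_iff_facts encF encR hF hR, iso_labn_iff]
  constructor
  · rintro ⟨σ, hσ⟩
    refine ⟨σ, fun q => ?_⟩
    unfold Hat
    rw [hσ]
    rfl
  · rintro ⟨σ, hσ⟩
    refine ⟨σ, fun q => ?_⟩
    have := hσ q
    unfold Hat at this
    constructor
    · intro h
      rcases this.1 (Or.inr h) with h1 | h1
      · exact (facts_pos encF encR h h1).elim
      · exact h1
    · intro h
      rcases this.2 (Or.inr h) with h1 | h1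
      · exact (facts_pos encF encR h h1).elim
      · exact h1

end Facts

end Pool.MPcae7fa
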